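import Pool.Agent.Helper326_EC.Defs

set_option autoImplicit false

/-!
The second coefficient.
-/

namespace Pool.Agent.Helper326_EC

open Finset



namespace J_count_m1

theorem two_edges {V : Type} [Fintype V] [DecidableEq V] (G : SimpleGraph V) [DecidableRel G.Adj]
    (hδ : ∀ v, 2 ≤ G.degree v) (F : Finset (Sym2 V)) (hF : F ⊆ G.edgeFinset)
    (hc : F.card = G.edgeFinset.card - 1) (hm : 1 ≤ G.edgeFinset.card) (v : V) : ∃ e ∈ F, v ∈ e := by
  by_contra hcon
  push Not at hcon
  have h1 : G.incidenceFinset v ⊆ G.edgeFinset \ F := by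
    intro e he
    rw [SimpleGraph.mem_incidenceFinset] at he
    rw [Finset.mem_sdiff]
    refine ⟨?_, fun h => hcon e h he.2⟩
    rw [SimpleGraph.mem_edgeFinset]
    exact he.1
  have h2 := Finset.card_le_card h1
  rw [SimpleGraph.card_incidenceFinset_eq_degree, Finset.card_sdiff_of_subset hF, hc] at h2
  have h3 := hδ v
  omega

end J_count_m1

/-- TARGET -/
theorem count_m1 {V : Type} [Fintype V] [DecidableEq V] (G : SimpleGraph V) [DecidableRel G.Adj]
    (hδ : ∀ v, 2 ≤ G.degree v) (hm : 1 ≤ G.edgeFinset.card) :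
    ((covers G).filter (fun F => F.card = G.edgeFinset.card - 1)).card = G.edgeFinset.card := by
  have h : (covers G).filter (fun F => F.card = G.edgeFinset.card - 1) =
      G.edgeFinset.powersetCard (G.edgeFinset.card - 1) := by
    ext F
    simp only [covers, Finset.mem_filter, Finset.mem_powerset, Finset.mem_powersetCard]
    constructor
    · rintro ⟨⟨h1, -⟩, h2⟩
      exact ⟨h1, h2⟩
    · rintro ⟨h1, h2⟩
      exact ⟨⟨h1, fun v => J_count_m1.two_edges G hδ F h1 h2 hm v⟩, h2⟩
  rw [h, Finset.card_powersetCard]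
  obtain ⟨k, hk⟩ := Nat.exists_eq_add_of_le hm
  rw [hk]
  have : 1 + k - 1 = k := by omega
  rw [this, add_comm, Nat.choose_succ_self_right]


end Pool.Agent.Helper326_EC
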