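import Pool.Agent.Helper326_EC.Defs

set_option autoImplicit false

/-!
The third coefficient.
-/

namespace Pool.Agent.Helper326_EC

open Finset



namespace J_count_m2

theorem inc_sub {V : Type} [Fintype V] [DecidableEq V] (G : SimpleGraph V) [DecidableRel G.Adj] (v : V) :
    G.incidenceFinset v ⊆ G.edgeFinset := by
  intro e he
  rw [SimpleGraph.mem_incidenceFinset] at he
  rw [SimpleGraph.mem_edgeFinset]
  exact he.1

theorem mem_inc {V : Type} [Fintype V] [DecidableEq V] (G : SimpleGraph V) [DecidableRel G.Adj] (v : V)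
    (e : Sym2 V) : e ∈ G.incidenceFinset v ↔ e ∈ G.edgeFinset ∧ v ∈ e := by
  rw [SimpleGraph.mem_incidenceFinset, SimpleGraph.mem_edgeFinset]
  rfl

theorem inj {V : Type} [Fintype V] [DecidableEq V] (G : SimpleGraph V) [DecidableRel G.Adj] :
    Set.InjOn (fun v => G.edgeFinset \ G.incidenceFinset v) (deg2 G : Set V) := by
  intro u hu v hv h
  simp only [deg2, coe_filter, mem_univ, true_and, Set.mem_ofPred_eq] at hu hv
  have h1 : G.incidenceFinset u = G.incidenceFinset v := by
    have h2 := congrArg (fun s => G.edgeFinset \ s) h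
    simp only at h2
    rwa [Finset.sdiff_sdiff_eq_self (inc_sub G u), Finset.sdiff_sdiff_eq_self (inc_sub G v)] at h2
  by_contra hne
  have h3 : G.incidenceFinset u ⊆ {s(u, v)} := by
    intro e he
    have he2 : e ∈ G.incidenceFinset v := h1 ▸ he
    rw [mem_inc] at he he2
    rw [mem_singleton]
    exact ((Sym2.mem_and_mem_iff hne).mp ⟨he.2, he2.2⟩)
  have h4 := card_le_card h3
  rw [SimpleGraph.card_incidenceFinset_eq_degree, hu, card_singleton] at h4
  omega

end J_count_m2

/-- TARGET -/
theorem count_m2 {V : Type} [Fintype V] [DecidableEq V] (G : SimpleGraph V) [DecidableRel G.Adj]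
    (hδ : ∀ v, 2 ≤ G.degree v) (hm : 2 ≤ G.edgeFinset.card) :
    ((covers G).filter (fun F => F.card = G.edgeFinset.card - 2)).card + (deg2 G).card =
      G.edgeFinset.card.choose 2 := by
  classical
  have h1 := card_filter_add_card_filter_not (s := G.edgeFinset.powersetCard (G.edgeFinset.card - 2))
    (fun F => ∀ v, ∃ e ∈ F, v ∈ e)
  rw [card_powersetCard, Nat.choose_symm hm] at h1
  rw [← h1]
  congr 1
  · congr 1
    ext F
    simp only [covers, mem_filter, mem_powerset, mem_powersetCard]
    tauto
  · rw [← card_image_of_injOn (J_count_m2.inj G)]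
    congr 1
    ext F
    simp only [deg2, mem_image, mem_filter, mem_univ, true_and, mem_powersetCard]
    constructor
    · rintro ⟨v, hv, rfl⟩
      refine ⟨⟨sdiff_subset, ?_⟩, ?_⟩
      · rw [card_sdiff_of_subset (J_count_m2.inc_sub G v), SimpleGraph.card_incidenceFinset_eq_degree, hv]
      · intro h
        obtain ⟨e, he, hve⟩ := h v
        rw [mem_sdiff, J_count_m2.mem_inc] at he
        exact he.2 ⟨he.1, hve⟩
    · rintro ⟨⟨hF, hc⟩, hn⟩
      push Not at hn
      obtain ⟨v, hv⟩ := hn
      have h2 : G.incidenceFinset v ⊆ G.edgeFinset \ F := by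
        intro e he
        rw [J_count_m2.mem_inc] at he
        rw [mem_sdiff]
        exact ⟨he.1, fun h => hv e h he.2⟩
      have h3 : (G.edgeFinset \ F).card = 2 := by
        rw [card_sdiff_of_subset hF, hc]
        omega
      have h4 : G.incidenceFinset v = G.edgeFinset \ F := by
        apply eq_of_subset_of_card_le h2
        rw [h3, SimpleGraph.card_incidenceFinset_eq_degree]
        exact hδ v
      refine ⟨v, ?_, ?_⟩
      · rw [← SimpleGraph.card_incidenceFinset_eq_degree, h4, h3]
      · rw [h4, Finset.sdiff_sdiff_eq_self hF]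

end Pool.Agent.Helper326_EC
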