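import Pool.Agent.Helper326_EC.Defs

set_option autoImplicit false

/-!
An edge cover from a perfect matching of the join with d vertices.
-/

namespace Pool.Agent.Helper326_EC

open Finset



namespace J_cover_of_pm

/-- the edge chosen at `v` -/
def ph {V : Type} {d : ℕ} (p : V ⊕ Fin d → V ⊕ Fin d) (g : V → V) (v : V) : Sym2 V :=
  match p (Sum.inl v) with
  | Sum.inl w => s(v, w)
  | Sum.inr _ => s(v, g v)

theorem ph_inl {V : Type} {d : ℕ} (p : V ⊕ Fin d → V ⊕ Fin d) (g : V → V) (v w : V)
    (h : p (Sum.inl v) = Sum.inl w) : ph p g v = s(v, w) := by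
  simp [ph, h]

theorem ph_inr {V : Type} {d : ℕ} (p : V ⊕ Fin d → V ⊕ Fin d) (g : V → V) (v : V) (i : Fin d)
    (h : p (Sum.inl v) = Sum.inr i) : ph p g v = s(v, g v) := by
  simp [ph, h]

end J_cover_of_pm

open J_cover_of_pm in
/-- TARGET -/
theorem cover_of_pm {V : Type} [Fintype V] [DecidableEq V] (G : SimpleGraph V) [DecidableRel G.Adj]
    (hδ : ∀ v, ∃ w, G.Adj v w) (d : ℕ) (M : (jn G d).Subgraph) (hM : M.IsPerfectMatching) :
    ∃ F ∈ covers G, 2 * F.card ≤ Fintype.card V + d := by
  classical
  rw [SimpleGraph.Subgraph.isPerfectMatching_iff] at hM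
  choose p hp hpu using hM
  choose g hg using hδ
  have hadj : ∀ v w, p (Sum.inl v) = Sum.inl w → G.Adj v w := by
    intro v w h
    have h1 := hp (Sum.inl v)
    rw [h] at h1
    exact (M.adj_sub h1).2 v w rfl rfl
  have hpp : ∀ v w, p (Sum.inl v) = Sum.inl w → p (Sum.inl w) = Sum.inl v := by
    intro v w h
    have h1 := hp (Sum.inl v)
    rw [h] at h1
    exact (hpu _ _ h1.symm).symm
  have hedge : ∀ v, ph p g v ∈ G.edgeFinset := by
    intro v
    rw [SimpleGraph.mem_edgeFinset]
    rcases h : p (Sum.inl v) with w | i
    · rw [ph_inl p g v w h]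
      exact hadj v w h
    · rw [ph_inr p g v i h]
      exact hg v
  have hmem : ∀ v, v ∈ ph p g v := by
    intro v
    rcases h : p (Sum.inl v) with w | i
    · rw [ph_inl p g v w h]; simp
    · rw [ph_inr p g v i h]; simp
  refine ⟨univ.image (ph p g), ?_, ?_⟩
  · rw [covers, mem_filter, mem_powerset]
    refine ⟨?_, fun v => ⟨ph p g v, mem_image_of_mem _ (mem_univ v), hmem v⟩⟩
    intro e he
    obtain ⟨v, _, rfl⟩ := mem_image.1 he
    exact hedge v
  · set V1 := univ.filter (fun v : V => (p (Sum.inl v)).isLeft = true) with hV1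
    set V2 := univ.filter (fun v : V => ¬ (p (Sum.inl v)).isLeft = true) with hV2
    have hsum : V1.card + V2.card = Fintype.card V := by
      rw [hV1, hV2, card_filter_add_card_filter_not, card_univ]
    have himg : univ.image (ph p g) = V1.image (ph p g) ∪ V2.image (ph p g) := by
      rw [← image_union, hV1, hV2, filter_union_filter_not_eq]
    have h2 : V2.card ≤ d := by
      have hinj : Set.InjOn (fun v => p (Sum.inl v)) (V2 : Set V) := by
        intro v hv w hw hvw
        have hvw' : p (Sum.inl v) = p (Sum.inl w) := hvw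
        have h1 := hp (Sum.inl v)
        have h2 := hp (Sum.inl w)
        rw [hvw'] at h1
        have h3 := hpu _ _ h1.symm
        have h4 := hpu _ _ h2.symm
        have h5 : (Sum.inl v : V ⊕ Fin d) = Sum.inl w := h3.trans h4.symm
        exact Sum.inl_injective h5
      have hc : V2.card ≤ ((univ : Finset (Fin d)).image (Sum.inr : Fin d → V ⊕ Fin d)).card := by
        refine card_le_card_of_injOn _ ?_ hinj
        intro v hv
        have hv' : v ∈ V2 := hv
        rcases h : p (Sum.inl v) with w | i
        · rw [hV2, mem_filter] at hv'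
          exact absurd (by rw [h]; rfl) hv'.2
        · simp [h]
      refine hc.trans (card_image_le.trans ?_)
      simp
    have h1 : 2 * (V1.image (ph p g)).card ≤ V1.card := by
      refine mul_card_image_le_card V1 2 ?_
      intro e he
      obtain ⟨v, hv, rfl⟩ := mem_image.1 he
      rcases h : p (Sum.inl v) with w | i
      · have hvw : v ≠ w := (hadj v w h).ne
        have hsub : ({v, w} : Finset V) ⊆ V1.filter (fun x => ph p g x = ph p g v) := by
          intro x hx
          rw [mem_insert, mem_singleton] at hx
          rcases hx with rfl | rfl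
          · exact mem_filter.2 ⟨hv, rfl⟩
          · rw [mem_filter, hV1, mem_filter]
            refine ⟨⟨mem_univ _, by rw [hpp v x h]; rfl⟩, ?_⟩
            rw [ph_inl p g v x h, ph_inl p g x v (hpp v x h)]
            exact Sym2.eq_swap
        calc 2 = ({v, w} : Finset V).card := (card_pair hvw).symm
          _ ≤ _ := card_le_card hsub
      · rw [hV1, mem_filter, h] at hv
        exact absurd hv.2 (by simp)
    have h3 : (univ.image (ph p g)).card ≤ (V1.image (ph p g)).card + V2.card := by
      rw [himg]
      exact (card_union_le _ _).trans (Nat.add_le_add_left card_image_le _)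
    omega

end Pool.Agent.Helper326_EC
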