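import Pool.Agent.Helper326_EC.Defs

set_option autoImplicit false

/-!
Edge covers and products over the classes.
-/

namespace Pool.Agent.Helper326_EC

open Finset


namespace J_covers_lt_prod

variable {V : Type} [Fintype V] [DecidableEq V]

/-- the family of the parts of a set of edges -/
def phi (G : SimpleGraph V) [DecidableRel G.Adj] (U : Finset V) (κ : V → V)
    (F : Finset (Sym2 V)) : (c : V) → c ∈ I U κ → Finset (Sym2 V) :=
  fun c _ => F ∩ TS G (K U κ c)

theorem mem_TS_of (G : SimpleGraph V) [DecidableRel G.Adj] (U : Finset V) (κ : V → V)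
    {e : Sym2 V} (he : e ∈ G.edgeFinset) {v : V} (hv : v ∈ e) (hvU : v ∉ U) :
    κ v ∈ I U κ ∧ e ∈ TS G (K U κ (κ v)) := by
  refine ⟨?_, ?_⟩
  · unfold I
    exact mem_image.2 ⟨v, mem_filter.2 ⟨mem_univ _, hvU⟩, rfl⟩
  · unfold TS
    refine mem_filter.2 ⟨he, v, ?_, hv⟩
    unfold K
    exact mem_filter.2 ⟨mem_univ _, hvU, rfl⟩

theorem sub_of_eq (G : SimpleGraph V) [DecidableRel G.Adj] (U : Finset V) (κ : V → V)
    (hE : ∀ e ∈ G.edgeFinset, ∃ v ∈ e, v ∉ U) {F F' : Finset (Sym2 V)}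
    (hF : F ⊆ G.edgeFinset) (h : phi G U κ F = phi G U κ F') : F ⊆ F' := by
  intro e he
  obtain ⟨v, hv, hvU⟩ := hE e (hF he)
  obtain ⟨h1, h2⟩ := mem_TS_of G U κ (hF he) hv hvU
  have h3 : e ∈ phi G U κ F (κ v) h1 := mem_inter.2 ⟨he, h2⟩
  rw [h] at h3
  exact (mem_inter.1 h3).1

theorem eq_of_eq (G : SimpleGraph V) [DecidableRel G.Adj] (U : Finset V) (κ : V → V)
    (hE : ∀ e ∈ G.edgeFinset, ∃ v ∈ e, v ∉ U) {F F' : Finset (Sym2 V)}
    (hF : F ⊆ G.edgeFinset) (hF' : F' ⊆ G.edgeFinset) (h : phi G U κ F = phi G U κ F') :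
    F = F' :=
  Subset.antisymm (sub_of_eq G U κ hE hF h) (sub_of_eq G U κ hE hF' h.symm)

theorem covers_sub (G : SimpleGraph V) [DecidableRel G.Adj] {F : Finset (Sym2 V)}
    (h : F ∈ covers G) : F ⊆ G.edgeFinset ∧ ∀ v, ∃ e ∈ F, v ∈ e := by
  unfold covers at h
  rw [mem_filter, mem_powerset] at h
  exact h

end J_covers_lt_prod

/-- TARGET -/
theorem covers_lt_prod {V : Type} [Fintype V] [DecidableEq V] (G : SimpleGraph V) [DecidableRel G.Adj]
    (hδ : ∀ v, 2 ≤ G.degree v) (U : Finset V) (hU : U.Nonempty) (κ : V → V) (hκ : Good G U κ)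
    (hE : ∀ e ∈ G.edgeFinset, ∃ v ∈ e, v ∉ U) :
    (covers G).card < ∏ c ∈ I U κ, (WS G (K U κ c)).card := by
  classical
  rw [← Finset.card_pi]
  have hinj : Set.InjOn (J_covers_lt_prod.phi G U κ) (covers G : Set (Finset (Sym2 V))) := by
    intro F hF F' hF' h
    exact J_covers_lt_prod.eq_of_eq G U κ hE (J_covers_lt_prod.covers_sub G hF).1
      (J_covers_lt_prod.covers_sub G hF').1 h
  rw [← card_image_of_injOn hinj]
  apply card_lt_card
  rw [ssubset_iff_of_subset]
  · obtain ⟨u, hu⟩ := hU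
    set F0 : Finset (Sym2 V) := G.edgeFinset.filter (fun e => u ∉ e) with hF0
    refine ⟨J_covers_lt_prod.phi G U κ F0, ?_, ?_⟩
    · rw [Finset.mem_pi]
      intro c hc
      unfold WS
      rw [mem_filter, mem_powerset]
      refine ⟨inter_subset_right, ?_⟩
      intro v hv
      have hv' := hv
      unfold K at hv'
      rw [mem_filter] at hv'
      obtain ⟨-, hvU, hvc⟩ := hv'
      have hvu : u ≠ v := by
        rintro rfl
        exact hvU hu
      have h1 : 0 < ((G.neighborFinset v).erase u).card := by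
        have h2 := hδ v
        rw [← G.card_neighborFinset_eq_degree] at h2
        have h3 := Finset.pred_card_le_card_erase (s := G.neighborFinset v) (a := u)
        omega
      obtain ⟨w, hw⟩ := card_pos.1 h1
      rw [mem_erase, SimpleGraph.mem_neighborFinset] at hw
      have he : s(v, w) ∈ G.edgeFinset := by
        rw [SimpleGraph.mem_edgeFinset]
        exact hw.2
      refine ⟨s(v, w), mem_inter.2 ⟨mem_filter.2 ⟨he, ?_⟩, ?_⟩, Sym2.mem_mk_left v w⟩
      · rw [Sym2.mem_iff]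
        rintro (h | h)
        · exact hvu h
        · exact hw.1 h.symm
      · unfold TS
        exact mem_filter.2 ⟨he, v, hv, Sym2.mem_mk_left v w⟩
    · intro hcon
      obtain ⟨F, hF, hFe⟩ := mem_image.1 hcon
      obtain ⟨hF1, hF2⟩ := J_covers_lt_prod.covers_sub G hF
      have hFF : F = F0 := J_covers_lt_prod.eq_of_eq G U κ hE hF1 (filter_subset _ _) hFe
      obtain ⟨e, he, hue⟩ := hF2 u
      rw [hFF] at he
      exact (mem_filter.1 he).2 hue
  · intro f hf
    obtain ⟨F, hF, rfl⟩ := mem_image.1 hf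
    obtain ⟨hF1, hF2⟩ := J_covers_lt_prod.covers_sub G hF
    rw [Finset.mem_pi]
    intro c hc
    unfold WS
    rw [mem_filter, mem_powerset]
    refine ⟨inter_subset_right, ?_⟩
    intro v hv
    obtain ⟨e, he, hve⟩ := hF2 v
    refine ⟨e, mem_inter.2 ⟨he, ?_⟩, hve⟩
    unfold TS
    exact mem_filter.2 ⟨hF1 he, v, hv, hve⟩

end Pool.Agent.Helper326_EC
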