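import Mathlib

set_option autoImplicit false

/-!
Edge covers of a finite graph: the working definitions.
-/

namespace Pool.Agent.Helper326_EC

open Finset

variable {V : Type} [Fintype V] [DecidableEq V]

/-- the edge covering sets of `G` -/
def covers (G : SimpleGraph V) [DecidableRel G.Adj] : Finset (Finset (Sym2 V)) :=
  G.edgeFinset.powerset.filter (fun F => ∀ v, ∃ e ∈ F, v ∈ e)

/-- the edges that touch the set `A` -/
def TS (G : SimpleGraph V) [DecidableRel G.Adj] (A : Finset V) : Finset (Sym2 V) :=
  G.edgeFinset.filter (fun e => ∃ v ∈ A, v ∈ e)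

/-- the sets of edges touching `A` that cover `A` -/
def WS (G : SimpleGraph V) [DecidableRel G.Adj] (A : Finset V) : Finset (Finset (Sym2 V)) :=
  (TS G A).powerset.filter (fun F => ∀ v ∈ A, ∃ e ∈ F, v ∈ e)

/-- a class of the partition of the complement of `U` given by `κ` -/
def K (U : Finset V) (κ : V → V) (c : V) : Finset V :=
  univ.filter (fun v => v ∉ U ∧ κ v = c)

/-- the names of the classes -/
def I (U : Finset V) (κ : V → V) : Finset V := (univ.filter (fun v => v ∉ U)).image κ

/-- no edge outside `U` joins two classes -/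
def Good (G : SimpleGraph V) (U : Finset V) (κ : V → V) : Prop :=
  ∀ v w, v ∉ U → w ∉ U → G.Adj v w → κ v = κ w

/-- the vertices of degree two -/
def deg2 (G : SimpleGraph V) [DecidableRel G.Adj] : Finset V :=
  univ.filter (fun v => G.degree v = 2)

/-- `G` together with `d` further vertices, adjacent to everything -/
def jn (G : SimpleGraph V) (d : ℕ) : SimpleGraph (V ⊕ Fin d) where
  Adj x y := x ≠ y ∧ ∀ a b, x = Sum.inl a → y = Sum.inl b → G.Adj a b
  symm := ⟨fun _ _ h => ⟨h.1.symm, fun a b ha hb => (h.2 b a hb ha).symm⟩⟩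
  loopless := ⟨fun _ h => h.1 rfl⟩

end Pool.Agent.Helper326_EC
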