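import Pool.Agent.Helper326_EC.Defs

set_option autoImplicit false

/-!
A Tutte violator of the join gives a set with many odd classes.
-/

namespace Pool.Agent.Helper326_EC

open Finset



namespace J_part_of_violator

/-- the vertices of the graph after the deletion of `S` -/
abbrev W {X : Type} (Γ : SimpleGraph X) (S : Set X) : Type :=
  {x // x ∈ ((⊤ : Γ.Subgraph).deleteVerts S).verts}

theorem mem_verts {X : Type} {Γ : SimpleGraph X} {S : Set X} {x : X} :
    x ∈ ((⊤ : Γ.Subgraph).deleteVerts S).verts ↔ x ∉ S := by
  simp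

theorem adj_iff {X : Type} {Γ : SimpleGraph X} {S : Set X} (x y : W Γ S) :
    ((⊤ : Γ.Subgraph).deleteVerts S).coe.Adj x y ↔ Γ.Adj x.1 y.1 := by
  rw [SimpleGraph.Subgraph.coe_adj, SimpleGraph.Subgraph.deleteVerts_adj]
  constructor
  · rintro ⟨_, _, _, _, h⟩
    exact h
  · intro h
    exact ⟨trivial, mem_verts.1 x.2, trivial, mem_verts.1 y.2, h⟩

theorem parity {X : Type} [Fintype X] (Γ : SimpleGraph X) (S : Set X) (he : Even (Fintype.card X))
    (hS : Γ.IsTutteViolator S) :
    S.ncard + 2 ≤ ((⊤ : Γ.Subgraph).deleteVerts S).coe.oddComponents.ncard := by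
  classical
  have h1 := SimpleGraph.odd_ncard_oddComponents ((⊤ : Γ.Subgraph).deleteVerts S).coe
  have h2 : Nat.card (((⊤ : Γ.Subgraph).deleteVerts S).verts) + S.ncard = Fintype.card X := by
    rw [Nat.card_coe_set_eq]
    have h3 : ((⊤ : Γ.Subgraph).deleteVerts S).verts = Sᶜ := by
      ext x
      rw [mem_verts, Set.mem_compl_iff]
    rw [h3, add_comm, Set.ncard_add_ncard_compl, Nat.card_eq_fintype_card]
  have h4 : S.ncard < ((⊤ : Γ.Subgraph).deleteVerts S).coe.oddComponents.ncard := hS
  rcases Nat.even_or_odd (Nat.card (((⊤ : Γ.Subgraph).deleteVerts S).verts)) with h5 | h5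
  · have h6 : ¬ Odd ((⊤ : Γ.Subgraph).deleteVerts S).coe.oddComponents.ncard := by
      rw [h1]
      exact Nat.not_odd_iff_even.2 h5
    have h7 := Nat.not_odd_iff_even.1 h6
    obtain ⟨a, ha⟩ := h5
    obtain ⟨b, hb⟩ := h7
    obtain ⟨c, hc⟩ := he
    omega
  · have h7 := h1.2 h5
    obtain ⟨a, ha⟩ := h5
    obtain ⟨b, hb⟩ := h7
    obtain ⟨c, hc⟩ := he
    omega

theorem inr_mem {V : Type} [Fintype V] [DecidableEq V] (G : SimpleGraph V) (d : ℕ)
    (S : Set (V ⊕ Fin d))
    (hS : 2 ≤ ((⊤ : (jn G d).Subgraph).deleteVerts S).coe.oddComponents.ncard) (i : Fin d) :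
    Sum.inr i ∈ S := by
  classical
  by_contra hi
  set H := ((⊤ : (jn G d).Subgraph).deleteVerts S).coe with hH
  let w : W (jn G d) S := ⟨Sum.inr i, mem_verts.2 hi⟩
  have h1 : ∀ c : H.ConnectedComponent, c = H.connectedComponentMk w := by
    intro c
    induction c using SimpleGraph.ConnectedComponent.ind with
    | _ x =>
      by_cases hx : x = w
      · rw [hx]
      · apply SimpleGraph.ConnectedComponent.eq.2
        apply SimpleGraph.Adj.reachable
        rw [hH, adj_iff]
        refine ⟨fun h => hx (Subtype.ext h), ?_⟩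
        intro a b _ hb
        simp [w] at hb
  have h2 : H.oddComponents.ncard ≤ 1 := by
    rw [Set.ncard_le_one_iff]
    intro a b _ _
    rw [h1 a, h1 b]
  omega

end J_part_of_violator

/-- TARGET -/
theorem part_of_violator {V : Type} [Fintype V] [DecidableEq V] (G : SimpleGraph V)
    (d : ℕ) (he : Even (Fintype.card V + d)) (S : Set (V ⊕ Fin d)) (hS : (jn G d).IsTutteViolator S) :
    ∃ (U : Finset V) (κ : V → V), Good G U κ ∧
      U.card + d + 2 ≤ ((I U κ).filter (fun c => Odd (K U κ c).card)).card := by
  classical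
  have hpar := J_part_of_violator.parity (jn G d) S (by
    rw [Fintype.card_sum, Fintype.card_fin]
    exact he) hS
  have hinr := J_part_of_violator.inr_mem G d S (by omega)
  set H := ((⊤ : (jn G d).Subgraph).deleteVerts S).coe with hH
  set U : Finset V := univ.filter (fun v => Sum.inl v ∈ S) with hU
  have hmU : ∀ v, v ∉ U ↔ Sum.inl v ∉ S := by
    intro v
    simp [hU]
  have hUc : U.card + d ≤ S.ncard := by
    have h1 : (U.disjSum (univ : Finset (Fin d))).card = U.card + d := by
      rw [card_disjSum, card_univ, Fintype.card_fin]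
    rw [← h1, ← Set.ncard_coe_finset]
    apply Set.ncard_le_ncard _ S.toFinite
    intro x hx
    rw [Finset.mem_coe, mem_disjSum] at hx
    rcases hx with ⟨v, hv, rfl⟩ | ⟨i, _, rfl⟩
    · rw [hU, mem_filter] at hv
      exact hv.2
    · exact hinr i
  have hex : ∀ c : H.ConnectedComponent, ∃ v : V, ∃ hv : Sum.inl v ∉ S,
      H.connectedComponentMk ⟨Sum.inl v, J_part_of_violator.mem_verts.2 hv⟩ = c := by
    intro c
    induction c using SimpleGraph.ConnectedComponent.ind with
    | _ x =>
      obtain ⟨x, hx⟩ := x
      rcases x with v | i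
      · exact ⟨v, J_part_of_violator.mem_verts.1 hx, rfl⟩
      · exact absurd (hinr i) (J_part_of_violator.mem_verts.1 hx)
  choose r hr1 hr2 using hex
  let κ : V → V := fun v =>
    if hv : Sum.inl v ∉ S then r (H.connectedComponentMk ⟨Sum.inl v, J_part_of_violator.mem_verts.2 hv⟩)
    else v
  have hκ : ∀ v (hv : Sum.inl v ∉ S),
      κ v = r (H.connectedComponentMk ⟨Sum.inl v, J_part_of_violator.mem_verts.2 hv⟩) := by
    intro v hv
    simp only [κ]
    rw [dif_pos hv]
  have hrinj : Function.Injective r := by
    intro a b hab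
    rw [← hr2 a, ← hr2 b]
    have h1 : (⟨Sum.inl (r a), J_part_of_violator.mem_verts.2 (hr1 a)⟩ :
        J_part_of_violator.W (jn G d) S) =
        ⟨Sum.inl (r b), J_part_of_violator.mem_verts.2 (hr1 b)⟩ := Subtype.ext (congrArg Sum.inl hab)
    exact congrArg H.connectedComponentMk h1
  refine ⟨U, κ, ?_, ?_⟩
  · intro v w hv hw hvw
    have hv' := (hmU v).1 hv
    have hw' := (hmU w).1 hw
    rw [hκ v hv', hκ w hw']
    congr 1
    apply SimpleGraph.ConnectedComponent.eq.2
    apply SimpleGraph.Adj.reachable
    rw [hH, J_part_of_violator.adj_iff]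
    refine ⟨fun h => hvw.ne (Sum.inl.inj h), ?_⟩
    intro a b ha hb
    rw [← Sum.inl.inj ha, ← Sum.inl.inj hb]
    exact hvw
  · have hfin : H.oddComponents.Finite := Set.toFinite _
    have h1 : H.oddComponents.ncard ≤ ((I U κ).filter (fun c => Odd (K U κ c).card)).card := by
      rw [← Set.ncard_image_of_injective _ hrinj, ← Set.ncard_coe_finset]
      apply Set.ncard_le_ncard _ (Finset.finite_toSet _)
      rintro _ ⟨c, hc, rfl⟩
      rw [Finset.mem_coe, mem_filter]
      constructor
      · unfold I
        rw [mem_image]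
        refine ⟨r c, ?_, ?_⟩
        · rw [mem_filter]
          exact ⟨mem_univ _, (hmU _).2 (hr1 c)⟩
        · rw [hκ _ (hr1 c), hr2]
      · have h2 : c.supp.ncard = (K U κ (r c)).card := by
          have h3 : Subtype.val '' c.supp = Sum.inl '' ((K U κ (r c) : Finset V) : Set V) := by
            ext x
            constructor
            · rintro ⟨y, hy, rfl⟩
              obtain ⟨y, hyv⟩ := y
              rcases y with v | i
              · refine ⟨v, ?_, rfl⟩
                have hv : Sum.inl v ∉ S := J_part_of_violator.mem_verts.1 hyv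
                rw [Finset.mem_coe]
                unfold K
                rw [mem_filter]
                refine ⟨mem_univ _, (hmU v).2 hv, ?_⟩
                rw [hκ v hv]
                congr 1
              · exact absurd (hinr i) (J_part_of_violator.mem_verts.1 hyv)
            · rintro ⟨v, hv, rfl⟩
              rw [Finset.mem_coe] at hv
              unfold K at hv
              rw [mem_filter] at hv
              have hv' := (hmU v).1 hv.2.1
              refine ⟨⟨Sum.inl v, J_part_of_violator.mem_verts.2 hv'⟩, ?_, rfl⟩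
              rw [SimpleGraph.ConnectedComponent.mem_supp_iff]
              apply hrinj
              rw [← hκ v hv']
              exact hv.2.2
          rw [← Set.ncard_image_of_injective _ Subtype.val_injective, h3,
            Set.ncard_image_of_injective _ Sum.inl_injective, Set.ncard_coe_finset]
        rw [← h2]
        exact hc
    omega

end Pool.Agent.Helper326_EC
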