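import Pool.Agent.Helper326_EC.Defs

set_option autoImplicit false

/-!
Monic integer polynomials with at most two complex roots.
-/

namespace Pool.Agent.Helper326_EC

open Finset




namespace J_poly_part

open Polynomial

theorem roots_form (P : Polynomial ℤ) (m : ℕ)
    (hP : P.Monic) (hdeg : P.natDegree = m) (h0 : P.coeff 0 = 0)
    (hr : {z : ℂ | Polynomial.aeval z P = 0}.ncard ≤ 2) :
    ∃ (c : ℂ) (a b : ℕ), c ≠ 0 ∧ a + b = m ∧
      P.map (Int.castRingHom ℂ) = X ^ a * (X - C c) ^ b := by
  classical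
  set Q := P.map (Int.castRingHom ℂ) with hQ
  have hQm : Q.Monic := hP.map _
  have hQ0 : Q ≠ 0 := hQm.ne_zero
  have hQd : Q.natDegree = m := by rw [hQ, hP.natDegree_map, hdeg]
  have hcard : Multiset.card Q.roots = m := by
    rw [← hQd]
    exact (Polynomial.splits_iff_card_roots.mp (IsAlgClosed.splits Q))
  have hset : {z : ℂ | Polynomial.aeval z P = 0} = (Q.roots.toFinset : Set ℂ) := by
    ext z
    simp only [Set.mem_ofPred_eq, Finset.mem_coe, Multiset.mem_toFinset, mem_roots hQ0, IsRoot.def]
    rw [hQ, eval_map, aeval_def]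
    rfl
  rw [hset, Set.ncard_coe_finset] at hr
  have h0m : (0 : ℂ) ∈ Q.roots.toFinset := by
    rw [Multiset.mem_toFinset, mem_roots hQ0, IsRoot.def, ← coeff_zero_eq_eval_zero, hQ,
      coeff_map, h0]
    simp
  have hex : ∃ c : ℂ, c ≠ 0 ∧ Q.roots.toFinset ⊆ {0, c} := by
    by_cases h : ∃ c ∈ Q.roots.toFinset, c ≠ 0
    · obtain ⟨c, hc, hc0⟩ := h
      refine ⟨c, hc0, ?_⟩
      have hsub : ({0, c} : Finset ℂ) ⊆ Q.roots.toFinset := by
        intro x hx
        rw [Finset.mem_insert, Finset.mem_singleton] at hx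
        rcases hx with rfl | rfl
        · exact h0m
        · exact hc
      have hc2 : ({0, c} : Finset ℂ).card = 2 := Finset.card_pair (Ne.symm hc0)
      have := Finset.eq_of_subset_of_card_le hsub (by rw [hc2]; exact hr)
      rw [this]
    · refine ⟨1, one_ne_zero, ?_⟩
      intro x hx
      rw [Finset.mem_insert]
      left
      by_contra hx0
      exact h ⟨x, hx, hx0⟩
  obtain ⟨c, hc0, hsub⟩ := hex
  refine ⟨c, Q.roots.count 0, Q.roots.count c, hc0, ?_, ?_⟩
  · have h1 : Multiset.card Q.roots = ∑ x ∈ ({0, c} : Finset ℂ), Q.roots.count x := by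
      rw [← Multiset.toFinset_sum_count_eq]
      apply Finset.sum_subset hsub
      intro x _ hx
      rw [Multiset.count_eq_zero]
      intro h
      exact hx (Multiset.mem_toFinset.mpr h)
    rw [hcard, Finset.sum_pair (Ne.symm hc0)] at h1
    exact h1.symm
  · have h1 : Q = (Q.roots.map (fun a => X - C a)).prod :=
      ((IsAlgClosed.splits Q).eq_prod_roots_of_monic hQm)
    have h2 : (Q.roots.map (fun a => X - C a)).prod =
        ∏ x ∈ ({0, c} : Finset ℂ), (X - C x) ^ Q.roots.count x := by
      rw [Finset.prod_multiset_map_count]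
      apply Finset.prod_subset hsub
      intro x _ hx
      have : Q.roots.count x = 0 := by
        rw [Multiset.count_eq_zero]
        intro h
        exact hx (Multiset.mem_toFinset.mpr h)
      rw [this, pow_zero]
    rw [Finset.prod_pair (Ne.symm hc0)] at h2
    rw [h2] at h1
    simpa using h1

end J_poly_part

/-- TARGET -/
theorem poly_part (P : Polynomial ℤ) (m N : ℕ) (hm : 2 ≤ m) (hN : 0 < N) (hNm : N ≤ m)
    (hP : P.Monic) (hdeg : P.natDegree = m) (h0 : P.coeff 0 = 0) (h1 : P.coeff (m - 1) = m)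
    (h2 : P.coeff (m - 2) + N = m.choose 2)
    (hr : {z : ℂ | Polynomial.aeval z P = 0}.ncard ≤ 2) :
    (m = 2 * N ∧ (∀ i < N, P.coeff i = 0) ∧ P.eval 1 = 3 ^ N) ∨
      (m = N ∧ ∃ b, m = 3 * b ∧ ∀ i < 2 * b, P.coeff i = 0) := by
  obtain ⟨c, a, b, hc0, hab, hQ⟩ := J_poly_part.roots_form P m hP hdeg h0 hr
  have hco : ∀ i, ((P.coeff i : ℤ) : ℂ) = (Polynomial.X ^ a * (Polynomial.X - Polynomial.C c) ^ b : Polynomial ℂ).coeff i := by
    intro i
    rw [← hQ, Polynomial.coeff_map]
    rfl
  have hlow : ∀ i < a, P.coeff i = 0 := by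
    intro i hi
    have h := hco i
    rw [Polynomial.coeff_X_pow_mul', if_neg (by omega)] at h
    exact_mod_cast h
  have hb : 1 ≤ b := by
    by_contra hb
    have hb0 : b = 0 := by omega
    have := hlow (m - 1) (by omega)
    rw [h1] at this
    have : m = 0 := by exact_mod_cast this
    omega
  -- first coefficient
  have e1 : -c * b = m := by
    have h := hco (m - 1)
    rw [h1, Polynomial.coeff_X_pow_mul', if_pos (by omega), sub_eq_add_neg, ← Polynomial.C_neg, Polynomial.coeff_X_add_C_pow] at h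
    have e : m - 1 - a = b - 1 := by omega
    rw [e] at h
    have e' : b - (b - 1) = 1 := by omega
    have e'' : b.choose (b - 1) = b := by
      have := Nat.choose_symm (n := b) (k := 1) hb
      rw [this, Nat.choose_one_right]
    rw [e', e'', pow_one] at h
    push_cast at h
    exact h.symm
  have e2 : ((P.coeff (m - 2) : ℤ) : ℂ) = c ^ 2 * (b * (b - 1) / 2) := by
    have h := hco (m - 2)
    rw [Polynomial.coeff_X_pow_mul'] at h
    by_cases hb2 : 2 ≤ b
    · rw [if_pos (by omega), sub_eq_add_neg, ← Polynomial.C_neg, Polynomial.coeff_X_add_C_pow] at h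
      have e : m - 2 - a = b - 2 := by omega
      rw [e] at h
      have e' : b - (b - 2) = 2 := by omega
      have e'' : b.choose (b - 2) = b.choose 2 := Nat.choose_symm hb2
      rw [e', e'', Nat.cast_choose_two] at h
      rw [h]; ring
    · have hb1 : b = 1 := by omega
      rw [if_neg (by omega)] at h
      rw [h, hb1]; simp
  have e3 : ((P.coeff (m - 2) : ℤ) : ℂ) + N = m * (m - 1) / 2 := by
    have h2' : ((P.coeff (m - 2) + N : ℤ) : ℂ) = ((m.choose 2 : ℤ) : ℂ) := by rw [h2]
    rw [← Nat.cast_choose_two]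
    push_cast at h2'
    exact h2' 
  have e4 : (m : ℂ) * (-c) = m + 2 * N := by
    rw [e2] at e3
    have : (m : ℂ) * (m + c) + 2 * N = m * (m - 1) := by
      have e5 : c ^ 2 * (b * (b - 1) / 2) = (-c * b) * (-c * b + c) / 2 := by ring
      rw [e5, e1] at e3
      linear_combination 2 * e3
    linear_combination -this
  have hroot : Polynomial.aeval c P = 0 := by
    have : (P.map (Int.castRingHom ℂ)).eval c = 0 := by
      rw [hQ]
      simp [Nat.pos_iff_ne_zero.mp hb]
    rw [Polynomial.eval_map] at this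
    rw [Polynomial.aeval_def]
    exact this
  have hmC : (m : ℂ) ≠ 0 := by
    have : m ≠ 0 := by omega
    exact_mod_cast this
  have hmQ : (m : ℚ) ≠ 0 := by
    have : m ≠ 0 := by omega
    exact_mod_cast this
  -- c is rational
  have hcq : c = (((-(m + 2 * N : ℚ) / m : ℚ)) : ℂ) := by
    push_cast
    field_simp
    linear_combination -e4
  have hrootQ : Polynomial.aeval ((-(m + 2 * N : ℚ) / m : ℚ)) P = 0 := by
    have h := hroot
    rw [hcq] at h
    have e : (((-(m + 2 * N : ℚ) / m : ℚ)) : ℂ) = algebraMap ℚ ℂ (-(m + 2 * N : ℚ) / m : ℚ) := rfl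
    rw [e, Polynomial.aeval_algebraMap_apply] at h
    exact (map_eq_zero _).mp h
  obtain ⟨k, hk⟩ := isInteger_of_is_root_of_monic hP hrootQ
  have hk' : (k : ℚ) * m = -(m + 2 * N) := by
    have : (k : ℚ) = -(m + 2 * N : ℚ) / m := by
      rw [← hk]; rfl
    rw [this]; field_simp
  have hkZ : k * m = -(m + 2 * N) := by exact_mod_cast hk'
  have hck : c = (k : ℂ) := by
    rw [hcq]
    have : (k : ℚ) = -(m + 2 * N : ℚ) / m := by
      rw [← hk]; rfl
    rw [← this]; push_cast; rfl
  have hbk : -k * b = m := by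
    rw [hck] at e1
    exact_mod_cast e1
  have hmpos : (0 : ℤ) < m := by exact_mod_cast (by omega : 0 < m)
  have hk1 : -k ≤ 3 := by
    by_contra hcon
    push Not at hcon
    have : (4 : ℤ) * m ≤ -k * m := by nlinarith
    have hNm' : (N : ℤ) ≤ m := by exact_mod_cast hNm
    nlinarith
  have hk2 : 2 ≤ -k := by
    by_contra hcon
    push Not at hcon
    have : -k * m ≤ 1 * m := by nlinarith
    have hN' : (0 : ℤ) < N := by exact_mod_cast hN
    nlinarith
  have hk3 : k = -2 ∨ k = -3 := by omega
  rcases hk3 with rfl | rfl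
  · left
    have hmN : m = 2 * N := by omega
    have hbN : b = N := by omega
    have haN : a = N := by omega
    refine ⟨hmN, ?_, ?_⟩
    · rw [← haN]; exact hlow
    · have : ((P.eval 1 : ℤ) : ℂ) = ((3 ^ N : ℤ) : ℂ) := by
        have h := congrArg (Polynomial.eval 1) hQ
        rw [Polynomial.eval_map, Polynomial.eval₂_at_one] at h
        have : (Int.castRingHom ℂ) (P.eval 1) = ((P.eval 1 : ℤ) : ℂ) := rfl
        rw [this] at h
        rw [h, hck, hbN]
        simp
        norm_num
      exact_mod_cast this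
  · right
    have hmN : m = N := by omega
    refine ⟨hmN, b, by omega, ?_⟩
    have : a = 2 * b := by omega
    rw [← this]; exact hlow

end Pool.Agent.Helper326_EC
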