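import Pool.Agent.Helper326_EC.Defs

set_option autoImplicit false

/-!
Graphs on five vertices.
-/

namespace Pool.Agent.Helper326_EC

open Finset



namespace J_small5

/-- the bits of `y` are a cover in the graph with bits `x` -/
def P (x y : ℕ) : Bool :=
  (!(y.testBit 0) || x.testBit 0) &&
  (!(y.testBit 1) || x.testBit 1) &&
  (!(y.testBit 2) || x.testBit 2) &&
  (!(y.testBit 3) || x.testBit 3) &&
  (!(y.testBit 4) || x.testBit 4) &&
  (!(y.testBit 5) || x.testBit 5) &&
  (!(y.testBit 6) || x.testBit 6) &&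
  (!(y.testBit 7) || x.testBit 7) &&
  (!(y.testBit 8) || x.testBit 8) &&
  (!(y.testBit 9) || x.testBit 9) &&
  (y.testBit 0 || y.testBit 1 || y.testBit 2 || y.testBit 3) &&
  (y.testBit 0 || y.testBit 4 || y.testBit 5 || y.testBit 6) &&
  (y.testBit 1 || y.testBit 4 || y.testBit 7 || y.testBit 8) &&
  (y.testBit 2 || y.testBit 5 || y.testBit 7 || y.testBit 9) &&
  (y.testBit 3 || y.testBit 6 || y.testBit 8 || y.testBit 9)

/-- the degrees in the graph with bits `x` are `2, 2, 2, 3, 3` -/
def D (x : ℕ) : Bool :=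
  decide ((x.testBit 0).toNat + (x.testBit 1).toNat + (x.testBit 2).toNat + (x.testBit 3).toNat = 2) &&
  decide ((x.testBit 0).toNat + (x.testBit 4).toNat + (x.testBit 5).toNat + (x.testBit 6).toNat = 2) &&
  decide ((x.testBit 1).toNat + (x.testBit 4).toNat + (x.testBit 7).toNat + (x.testBit 8).toNat = 2) &&
  decide ((x.testBit 2).toNat + (x.testBit 5).toNat + (x.testBit 7).toNat + (x.testBit 9).toNat = 3) &&
  decide ((x.testBit 3).toNat + (x.testBit 6).toNat + (x.testBit 8).toNat + (x.testBit 9).toNat = 3)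

theorem key : ∀ x < 1024, D x = true → ((range 1024).filter (fun y => P x y = true)).card ≤ 26 := by
  decide +kernel

/-- the ten pairs -/
def ed {V : Type} (a b c u w : V) : Fin 10 → Sym2 V :=
  ![s(a, b), s(a, c), s(a, u), s(a, w), s(b, c), s(b, u), s(b, w), s(c, u), s(c, w), s(u, w)]

/-- the code of a set of edges -/
def code {V : Type} [DecidableEq V] (a b c u w : V) (F : Finset (Sym2 V)) : ℕ :=
  Nat.ofBits (fun k : Fin 10 => decide (ed a b c u w k ∈ F))

theorem tb {V : Type} [DecidableEq V] (a b c u w : V) (F : Finset (Sym2 V)) (k : ℕ)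
    (hk : k < 10) : (code a b c u w F).testBit k = decide (ed a b c u w ⟨k, hk⟩ ∈ F) :=
  Nat.testBit_ofBits_lt _ k hk

theorem tb0 {V : Type} [DecidableEq V] (a b c u w : V) (F : Finset (Sym2 V)) :
    (code a b c u w F).testBit 0 = decide (s(a, b) ∈ F) := by
  rw [tb a b c u w F 0 (by norm_num)]
  exact decide_eq_decide.2 Iff.rfl

theorem tb1 {V : Type} [DecidableEq V] (a b c u w : V) (F : Finset (Sym2 V)) :
    (code a b c u w F).testBit 1 = decide (s(a, c) ∈ F) := by
  rw [tb a b c u w F 1 (by norm_num)]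
  exact decide_eq_decide.2 Iff.rfl

theorem tb2 {V : Type} [DecidableEq V] (a b c u w : V) (F : Finset (Sym2 V)) :
    (code a b c u w F).testBit 2 = decide (s(a, u) ∈ F) := by
  rw [tb a b c u w F 2 (by norm_num)]
  exact decide_eq_decide.2 Iff.rfl

theorem tb3 {V : Type} [DecidableEq V] (a b c u w : V) (F : Finset (Sym2 V)) :
    (code a b c u w F).testBit 3 = decide (s(a, w) ∈ F) := by
  rw [tb a b c u w F 3 (by norm_num)]
  exact decide_eq_decide.2 Iff.rfl

theorem tb4 {V : Type} [DecidableEq V] (a b c u w : V) (F : Finset (Sym2 V)) :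
    (code a b c u w F).testBit 4 = decide (s(b, c) ∈ F) := by
  rw [tb a b c u w F 4 (by norm_num)]
  exact decide_eq_decide.2 Iff.rfl

theorem tb5 {V : Type} [DecidableEq V] (a b c u w : V) (F : Finset (Sym2 V)) :
    (code a b c u w F).testBit 5 = decide (s(b, u) ∈ F) := by
  rw [tb a b c u w F 5 (by norm_num)]
  exact decide_eq_decide.2 Iff.rfl

theorem tb6 {V : Type} [DecidableEq V] (a b c u w : V) (F : Finset (Sym2 V)) :
    (code a b c u w F).testBit 6 = decide (s(b, w) ∈ F) := by
  rw [tb a b c u w F 6 (by norm_num)]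
  exact decide_eq_decide.2 Iff.rfl

theorem tb7 {V : Type} [DecidableEq V] (a b c u w : V) (F : Finset (Sym2 V)) :
    (code a b c u w F).testBit 7 = decide (s(c, u) ∈ F) := by
  rw [tb a b c u w F 7 (by norm_num)]
  exact decide_eq_decide.2 Iff.rfl

theorem tb8 {V : Type} [DecidableEq V] (a b c u w : V) (F : Finset (Sym2 V)) :
    (code a b c u w F).testBit 8 = decide (s(c, w) ∈ F) := by
  rw [tb a b c u w F 8 (by norm_num)]
  exact decide_eq_decide.2 Iff.rfl

theorem tb9 {V : Type} [DecidableEq V] (a b c u w : V) (F : Finset (Sym2 V)) :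
    (code a b c u w F).testBit 9 = decide (s(u, w) ∈ F) := by
  rw [tb a b c u w F 9 (by norm_num)]
  exact decide_eq_decide.2 Iff.rfl

theorem code_lt {V : Type} [DecidableEq V] (a b c u w : V) (F : Finset (Sym2 V)) :
    code a b c u w F < 1024 := Nat.ofBits_lt_two_pow _

end J_small5

open J_small5 in
/-- TARGET -/
theorem small5 {V : Type} [Fintype V] [DecidableEq V] (G : SimpleGraph V) [DecidableRel G.Adj]
    (hδ : ∀ v, 2 ≤ G.degree v) (hn : Fintype.card V = 5) (hm : G.edgeFinset.card = 6)
    (h2 : (deg2 G).card = 3) : (covers G).card ≠ 27 := by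
  classical
  have h2' : (univ \ deg2 G).card = 2 := by
    rw [card_sdiff_of_subset (subset_univ _), card_univ, hn, h2]
  obtain ⟨a, b, c, hab, hac, hbc, hS⟩ := card_eq_three.1 h2
  obtain ⟨u, w, huw, hC⟩ := card_eq_two.1 h2'
  have hmem2 : ∀ v, v ∈ deg2 G ↔ v = a ∨ v = b ∨ v = c := by
    intro v; rw [hS]; simp
  have hmemC : ∀ v, v ∉ deg2 G ↔ v = u ∨ v = w := by
    intro v
    have : v ∉ deg2 G ↔ v ∈ univ \ deg2 G := by simp
    rw [this, hC]; simp
  have hdeg : ∀ v, v ∈ deg2 G ↔ G.degree v = 2 := by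
    intro v; simp [deg2]
  have hall : ∀ v, v = a ∨ v = b ∨ v = c ∨ v = u ∨ v = w := by
    intro v
    by_cases hv : v ∈ deg2 G
    · rcases (hmem2 v).1 hv with h | h | h <;> tauto
    · rcases (hmemC v).1 hv with h | h <;> tauto
  have ha : a ∈ deg2 G := (hmem2 a).2 (Or.inl rfl)
  have hb : b ∈ deg2 G := (hmem2 b).2 (Or.inr (Or.inl rfl))
  have hc : c ∈ deg2 G := (hmem2 c).2 (Or.inr (Or.inr rfl))
  have hu : u ∉ deg2 G := (hmemC u).2 (Or.inl rfl)
  have hw : w ∉ deg2 G := (hmemC w).2 (Or.inr rfl)
  have hau : a ≠ u := fun h => hu (h ▸ ha)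
  have haw : a ≠ w := fun h => hw (h ▸ ha)
  have hbu : b ≠ u := fun h => hu (h ▸ hb)
  have hbw : b ≠ w := fun h => hw (h ▸ hb)
  have hcu : c ≠ u := fun h => hu (h ▸ hc)
  have hcw : c ≠ w := fun h => hw (h ▸ hc)
  have huniv : (univ : Finset V) = {a, b, c, u, w} := by
    ext v; simpa using hall v
  have hsum : ∀ f : V → ℕ, ∑ v, f v = f a + f b + f c + f u + f w := by
    intro f
    rw [huniv, sum_insert, sum_insert, sum_insert, sum_insert, sum_singleton]
    · ring
    · simp [huw]
    · simp [hcu, hcw]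
    · simp [hbc, hbu, hbw]
    · simp [hab, hac, hau, haw]
  have hdg : ∀ v, G.degree v = (decide (G.Adj v a)).toNat + (decide (G.Adj v b)).toNat +
      (decide (G.Adj v c)).toNat + (decide (G.Adj v u)).toNat + (decide (G.Adj v w)).toNat := by
    intro v
    rw [← SimpleGraph.card_neighborFinset_eq_degree]
    have : G.neighborFinset v = univ.filter (fun x => G.Adj v x) := by
      ext x; simp
    rw [this, card_filter, ← hsum (fun x => (decide (G.Adj v x)).toNat)]
    refine sum_congr rfl fun x _ => ?_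
    by_cases h : G.Adj v x <;> simp [h]
  have hda := (hdeg a).1 ha
  have hdb := (hdeg b).1 hb
  have hdc := (hdeg c).1 hc
  have hdu : G.degree u ≠ 2 := fun h => hu ((hdeg u).2 h)
  have hdw : G.degree w ≠ 2 := fun h => hw ((hdeg w).2 h)
  have htot := G.sum_degrees_eq_twice_card_edges
  rw [hsum (fun v => G.degree v), hm] at htot
  have h1u := hδ u
  have h1w := hδ w
  have hdu3 : G.degree u = 3 := by omega
  have hdw3 : G.degree w = 3 := by omega
  set x := code a b c u w G.edgeFinset with hx
  have hD : D x = true := by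
    rw [hdg] at hda hdb hdc hdu3 hdw3
    simp only [G.irrefl, G.adj_comm b a, G.adj_comm c a, G.adj_comm c b, G.adj_comm u a,
      G.adj_comm u b, G.adj_comm u c, G.adj_comm w a, G.adj_comm w b, G.adj_comm w c,
      G.adj_comm w u, decide_false, Bool.toNat_false] at hda hdb hdc hdu3 hdw3
    simp only [D, hx, tb0, tb1, tb2, tb3, tb4, tb5, tb6, tb7, tb8, tb9,
      SimpleGraph.mem_edgeFinset, SimpleGraph.mem_edgeSet, Bool.and_eq_true, decide_eq_true_eq]
    omega
  have hk := key x (code_lt a b c u w _) hD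
  have hmain : (covers G).card ≤ ((range 1024).filter (fun y => P x y = true)).card := by
    refine card_le_card_of_injOn (fun F => code a b c u w F) ?_ ?_
    · intro F hF
      have hF' : F ∈ covers G := hF
      rw [covers, mem_filter, mem_powerset] at hF'
      obtain ⟨hsub, hcov⟩ := hF'
      have hcv : ∀ v, s(v, a) ∈ F ∨ s(v, b) ∈ F ∨ s(v, c) ∈ F ∨ s(v, u) ∈ F ∨ s(v, w) ∈ F := by
        intro v
        obtain ⟨e, he, hve⟩ := hcov v
        obtain ⟨z, rfl⟩ := Sym2.mem_iff_exists.1 hve
        rcases hall z with h | h | h | h | h <;> rw [h] at he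
        · exact Or.inl he
        · exact Or.inr (Or.inl he)
        · exact Or.inr (Or.inr (Or.inl he))
        · exact Or.inr (Or.inr (Or.inr (Or.inl he)))
        · exact Or.inr (Or.inr (Or.inr (Or.inr he)))
      have hirr : ∀ v, s(v, v) ∉ F := by
        intro v hv
        have := hsub hv
        rw [SimpleGraph.mem_edgeFinset, SimpleGraph.mem_edgeSet] at this
        exact G.irrefl this
      have hsb : ∀ e, e ∈ F → e ∈ G.edgeFinset := fun e he => hsub he
      have hca := hcv a
      have hcb := hcv b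
      have hcc := hcv c
      have hcu' := hcv u
      have hcw' := hcv w
      rw [Sym2.eq_swap (a := b) (b := a)] at hcb
      rw [Sym2.eq_swap (a := c) (b := a), Sym2.eq_swap (a := c) (b := b)] at hcc
      rw [Sym2.eq_swap (a := u) (b := a), Sym2.eq_swap (a := u) (b := b),
        Sym2.eq_swap (a := u) (b := c)] at hcu'
      rw [Sym2.eq_swap (a := w) (b := a), Sym2.eq_swap (a := w) (b := b),
        Sym2.eq_swap (a := w) (b := c), Sym2.eq_swap (a := w) (b := u)] at hcw'
      simp only [hirr, false_or, or_false] at hca hcb hcc hcu' hcw'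
      have hmemr : code a b c u w F ∈ range 1024 := mem_range.2 (code_lt _ _ _ _ _ _)
      show code a b c u w F ∈ ((range 1024).filter (fun y => P x y = true) : Finset ℕ)
      rw [mem_filter]
      refine ⟨hmemr, ?_⟩
      simp only [P, hx, tb0, tb1, tb2, tb3, tb4, tb5, tb6, tb7, tb8, tb9, Bool.and_eq_true,
        Bool.or_eq_true, Bool.not_eq_true', decide_eq_true_eq, decide_eq_false_iff_not]
      have hq : ∀ e, e ∉ F ∨ e ∈ G.edgeFinset := fun e => by
        by_cases h : e ∈ F
        · exact Or.inr (hsub h)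
        · exact Or.inl h
      simp only [hq, true_and]
      simp only [or_assoc]
      exact ⟨⟨⟨⟨hca, hcb⟩, hcc⟩, hcu'⟩, hcw'⟩
    · intro F1 hF1 F2 hF2 h12
      have hF1' : F1 ∈ covers G := hF1
      have hF2' : F2 ∈ covers G := hF2
      rw [covers, mem_filter, mem_powerset] at hF1' hF2'
      have h12' : code a b c u w F1 = code a b c u w F2 := h12
      have hbit : ∀ k (hk : k < 10), (ed a b c u w ⟨k, hk⟩ ∈ F1 ↔ ed a b c u w ⟨k, hk⟩ ∈ F2) := by
        intro k hk
        have h3 := tb a b c u w F1 k hk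
        rw [h12', tb a b c u w F2 k hk] at h3
        simpa using h3.symm
      have e0 := hbit 0 (by norm_num)
      have e1 := hbit 1 (by norm_num)
      have e2 := hbit 2 (by norm_num)
      have e3 := hbit 3 (by norm_num)
      have e4 := hbit 4 (by norm_num)
      have e5 := hbit 5 (by norm_num)
      have e6 := hbit 6 (by norm_num)
      have e7 := hbit 7 (by norm_num)
      have e8 := hbit 8 (by norm_num)
      have e9 := hbit 9 (by norm_num)
      change s(a, b) ∈ F1 ↔ s(a, b) ∈ F2 at e0
      change s(a, c) ∈ F1 ↔ s(a, c) ∈ F2 at e1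
      change s(a, u) ∈ F1 ↔ s(a, u) ∈ F2 at e2
      change s(a, w) ∈ F1 ↔ s(a, w) ∈ F2 at e3
      change s(b, c) ∈ F1 ↔ s(b, c) ∈ F2 at e4
      change s(b, u) ∈ F1 ↔ s(b, u) ∈ F2 at e5
      change s(b, w) ∈ F1 ↔ s(b, w) ∈ F2 at e6
      change s(c, u) ∈ F1 ↔ s(c, u) ∈ F2 at e7
      change s(c, w) ∈ F1 ↔ s(c, w) ∈ F2 at e8
      change s(u, w) ∈ F1 ↔ s(u, w) ∈ F2 at e9
      have hir1 : ∀ v, s(v, v) ∉ F1 := by
        intro v hv
        have := hF1'.1 hv
        rw [SimpleGraph.mem_edgeFinset, SimpleGraph.mem_edgeSet] at this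
        exact G.irrefl this
      have hir2 : ∀ v, s(v, v) ∉ F2 := by
        intro v hv
        have := hF2'.1 hv
        rw [SimpleGraph.mem_edgeFinset, SimpleGraph.mem_edgeSet] at this
        exact G.irrefl this
      ext e
      induction e using Sym2.ind with
      | _ y z =>
        rcases hall y with rfl | rfl | rfl | rfl | rfl <;>
        rcases hall z with rfl | rfl | rfl | rfl | rfl <;>
        first
        | assumption
        | (simp only [hir1, hir2])
        | (rw [Sym2.eq_swap]; assumption)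
  have := hmain.trans hk
  omega

end Pool.Agent.Helper326_EC
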