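import Pool.Agent.Helper326_EC.Defs

set_option autoImplicit false

/-!
The number of edges touching a set of vertices.
-/

namespace Pool.Agent.Helper326_EC

open Finset




namespace J_TS_lower

/-- the number of vertices of an edge in a set -/
theorem fiber_le_two {V : Type} [Fintype V] [DecidableEq V] (A : Finset V) (e : Sym2 V) :
    (A.filter (fun v => v ∈ e)).card ≤ 2 := by
  induction e using Sym2.ind with
  | _ a b =>
    have h : A.filter (fun v => v ∈ s(a, b)) ⊆ {a, b} := by
      intro v hv
      simp only [Finset.mem_filter, Sym2.mem_iff] at hv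
      simp only [Finset.mem_insert, Finset.mem_singleton]
      exact hv.2
    exact (Finset.card_le_card h).trans Finset.card_le_two

/-- some edge leaves the set -/
theorem exists_leaving {V : Type} [Fintype V] [DecidableEq V] (G : SimpleGraph V)
    (hG : G.Connected) (A : Finset V) (hA : A.Nonempty) (hA' : A ≠ univ) :
    ∃ a ∈ A, ∃ b, b ∉ A ∧ G.Adj a b := by
  classical
  by_contra hcon
  push Not at hcon
  obtain ⟨a, ha⟩ := hA
  apply hA'
  rw [Finset.eq_univ_iff_forall]
  intro b
  obtain ⟨p⟩ := hG.preconnected a b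
  have key : ∀ (x y : V) (q : G.Walk x y), x ∈ A → y ∈ A := by
    intro x y q
    induction q with
    | nil => exact id
    | cons h q ih =>
      intro hx
      apply ih
      by_contra hy
      exact hcon _ hx _ hy h
  exact key a b p ha

end J_TS_lower

/-- TARGET -/
theorem TS_lower {V : Type} [Fintype V] [DecidableEq V] (G : SimpleGraph V) [DecidableRel G.Adj]
    (hG : G.Connected) (A : Finset V) (hA : A.Nonempty) (hA' : A ≠ univ) :
    (∑ v ∈ A, G.degree v) + 1 ≤ 2 * (TS G A).card := by
  classical
  obtain ⟨a, ha, b, hb, hab⟩ := J_TS_lower.exists_leaving G hG A hA hA'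
  have hdeg : ∀ v ∈ A, G.degree v = ((TS G A).filter (fun e => v ∈ e)).card := by
    intro v hv
    rw [← SimpleGraph.card_incidenceFinset_eq_degree]
    congr 1
    ext e
    simp only [SimpleGraph.mem_incidenceFinset, TS, Finset.mem_filter, SimpleGraph.mem_edgeFinset]
    constructor
    · intro h
      exact ⟨⟨h.1, v, hv, h.2⟩, h.2⟩
    · intro h
      exact ⟨h.1.1, h.2⟩
  have hsum : ∑ v ∈ A, G.degree v = ∑ e ∈ TS G A, (A.filter (fun v => v ∈ e)).card := by
    rw [Finset.sum_congr rfl hdeg]
    simp only [Finset.card_filter]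
    exact Finset.sum_comm
  have hmem : s(a, b) ∈ TS G A := by
    simp only [TS, Finset.mem_filter, SimpleGraph.mem_edgeFinset, SimpleGraph.mem_edgeSet]
    exact ⟨hab, a, ha, Sym2.mem_mk_left a b⟩
  have hone : (A.filter (fun v => v ∈ s(a, b))).card ≤ 1 := by
    have h : A.filter (fun v => v ∈ s(a, b)) ⊆ {a} := by
      intro v hv
      simp only [Finset.mem_filter, Sym2.mem_iff] at hv
      rcases hv.2 with h | h
      · simp [h]
      · rw [h] at hv
        exact absurd hv.1 hb
    exact (Finset.card_le_card h).trans (by simp)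
  rw [hsum, ← Finset.add_sum_erase _ _ hmem]
  have hrest : ∑ e ∈ (TS G A).erase s(a, b), (A.filter (fun v => v ∈ e)).card
      ≤ ∑ e ∈ (TS G A).erase s(a, b), 2 :=
    Finset.sum_le_sum (fun e _ => J_TS_lower.fiber_le_two A e)
  rw [Finset.sum_const, smul_eq_mul, Finset.card_erase_of_mem hmem] at hrest
  have hpos : 0 < (TS G A).card := Finset.card_pos.mpr ⟨_, hmem⟩
  omega

end Pool.Agent.Helper326_EC
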