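import Pool.Agent.Helper326_EC.Defs

set_option autoImplicit false

/-!
The edges are distributed over the classes.
-/

namespace Pool.Agent.Helper326_EC

open Finset



namespace J_TS_sum

variable {V : Type} [Fintype V] [DecidableEq V]

theorem disj (G : SimpleGraph V) [DecidableRel G.Adj] (U : Finset V) (κ : V → V) (hκ : Good G U κ)
    (c c' : V) (e : Sym2 V) (h : e ∈ TS G (K U κ c)) (h' : e ∈ TS G (K U κ c')) : c = c' := by
  unfold TS at h h'
  rw [mem_filter] at h h'
  obtain ⟨he, v, hv, hve⟩ := h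
  obtain ⟨-, w, hw, hwe⟩ := h'
  unfold K at hv hw
  simp only [mem_filter, mem_univ, true_and] at hv hw
  obtain ⟨hvU, hvc⟩ := hv
  obtain ⟨hwU, hwc⟩ := hw
  by_cases hvw : v = w
  · rw [← hvc, ← hwc, hvw]
  · have hadj : G.Adj v w := by
      rw [SimpleGraph.mem_edgeFinset] at he
      have : e = s(v, w) := ((Sym2.mem_and_mem_iff hvw).mp ⟨hve, hwe⟩)
      rw [this] at he
      exact (SimpleGraph.mem_edgeSet G).mp he
    rw [← hvc, ← hwc]
    exact hκ v w hvU hwU hadj

end J_TS_sum

/-- TARGET -/
theorem TS_sum {V : Type} [Fintype V] [DecidableEq V] (G : SimpleGraph V) [DecidableRel G.Adj]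
    (U : Finset V) (κ : V → V) (hκ : Good G U κ) :
    ∑ c ∈ I U κ, (TS G (K U κ c)).card = (G.edgeFinset.filter (fun e => ∃ v ∈ e, v ∉ U)).card := by
  rw [← Finset.card_biUnion]
  · congr 1
    ext e
    simp only [mem_biUnion, mem_filter]
    constructor
    · rintro ⟨c, hc, he⟩
      unfold TS at he
      rw [mem_filter] at he
      obtain ⟨he1, v, hv, hve⟩ := he
      unfold K at hv
      rw [mem_filter] at hv
      exact ⟨he1, v, hve, hv.2.1⟩
    · rintro ⟨he, v, hve, hvU⟩
      refine ⟨κ v, ?_, ?_⟩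
      · unfold I
        rw [mem_image]
        exact ⟨v, by rw [mem_filter]; exact ⟨mem_univ _, hvU⟩, rfl⟩
      · unfold TS
        rw [mem_filter]
        refine ⟨he, v, ?_, hve⟩
        unfold K
        rw [mem_filter]
        exact ⟨mem_univ _, hvU, rfl⟩
  · intro c _ c' _ hne
    show Disjoint (TS G (K U κ c)) (TS G (K U κ c'))
    rw [Finset.disjoint_left]
    intro e he he'
    exact hne (J_TS_sum.disj G U κ hκ c c' e he he')

end Pool.Agent.Helper326_EC
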