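import Pool.Agent.Helper326_EC.Defs

set_option autoImplicit false

/-!
The local covers of a class.
-/

namespace Pool.Agent.Helper326_EC

open Finset



namespace J_WS_card

lemma mem_inc {V : Type} [Fintype V] [DecidableEq V] (G : SimpleGraph V) [DecidableRel G.Adj]
    (v : V) (e : Sym2 V) : e ∈ G.incidenceFinset v ↔ e ∈ G.edgeFinset ∧ v ∈ e := by
  rw [SimpleGraph.mem_incidenceFinset, SimpleGraph.mem_edgeFinset]
  rfl

lemma inc_sub {V : Type} [Fintype V] [DecidableEq V] (G : SimpleGraph V) [DecidableRel G.Adj]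
    (A : Finset V) {v : V} (hv : v ∈ A) : G.incidenceFinset v ⊆ TS G A := by
  intro e he
  rw [mem_inc] at he
  unfold TS
  rw [Finset.mem_filter]
  exact ⟨he.1, v, hv, he.2⟩

lemma inc_inter {V : Type} [Fintype V] [DecidableEq V] (G : SimpleGraph V) [DecidableRel G.Adj]
    {x y : V} (h : x ≠ y) : (G.incidenceFinset x ∩ G.incidenceFinset y).card ≤ 1 := by
  rw [Finset.card_le_one]
  intro a ha b hb
  rw [Finset.mem_inter, mem_inc, mem_inc] at ha hb
  have h1 := (Sym2.mem_and_mem_iff h).1 ⟨ha.1.2, ha.2.2⟩
  have h2 := (Sym2.mem_and_mem_iff h).1 ⟨hb.1.2, hb.2.2⟩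
  rw [h1, h2]

lemma sum_ge {V : Type} [Fintype V] [DecidableEq V] (G : SimpleGraph V) [DecidableRel G.Adj]
    (hδ : ∀ v, 2 ≤ G.degree v) (A : Finset V) :
    2 * A.card + (A.filter (fun v => ¬ G.degree v = 2)).card ≤ ∑ v ∈ A, G.degree v := by
  have h1 : 2 * A.card + (A.filter (fun v => ¬ G.degree v = 2)).card =
      ∑ v ∈ A, (2 + if ¬ G.degree v = 2 then 1 else 0) := by
    rw [Finset.sum_add_distrib, Finset.sum_const, Finset.card_filter, smul_eq_mul, mul_comm]
  rw [h1]
  refine Finset.sum_le_sum fun v _ => ?_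
  have := hδ v
  split_ifs <;> omega

lemma WS_le {V : Type} [Fintype V] [DecidableEq V] (G : SimpleGraph V) [DecidableRel G.Adj]
    (A : Finset V) : (WS G A).card ≤ 2 ^ (TS G A).card := by
  unfold WS
  refine (Finset.card_filter_le _ _).trans ?_
  rw [Finset.card_powerset]

lemma pow_ineq (n : ℕ) : 2 ^ (n + 6) ≤ 3 ^ (n + 4) := by
  induction n with
  | zero => norm_num
  | succ n ih =>
    have e1 : 2 ^ (n + 1 + 6) = 2 * 2 ^ (n + 6) := by ring
    have e2 : 3 ^ (n + 1 + 4) = 3 * 3 ^ (n + 4) := by ring
    rw [e1, e2]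
    have := Nat.zero_le (3 ^ (n + 4))
    omega

lemma three {α : Type} [DecidableEq α] (T X Y Z : Finset α) (W : Finset (Finset α))
    (hT : T.card = 4) (hX : X.card = 2) (hY : Y.card = 2) (hZ : Z.card = 3)
    (hXT : X ⊆ T) (hYT : Y ⊆ T) (hZT : Z ⊆ T)
    (hXY : (X ∩ Y).card ≤ 1) (hXZ : (X ∩ Z).card ≤ 1) (hYZ : (Y ∩ Z).card ≤ 1)
    (hW : W ⊆ T.powerset) (hWX : ∀ F ∈ W, ∃ e ∈ F, e ∈ X) (hWY : ∀ F ∈ W, ∃ e ∈ F, e ∈ Y)
    (hWZ : ∀ F ∈ W, ∃ e ∈ F, e ∈ Z) : W.card ≤ 9 := by
  have hTZ : (T \ Z).card = 1 := by
    rw [Finset.card_sdiff_of_subset hZT]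
    omega
  obtain ⟨f, hf⟩ := Finset.card_eq_one.1 hTZ
  have hfT : f ∈ T ∧ f ∉ Z := by
    have : f ∈ T \ Z := by rw [hf]; exact Finset.mem_singleton_self f
    rwa [Finset.mem_sdiff] at this
  have key : ∀ U : Finset α, U.card = 2 → U ⊆ T → (U ∩ Z).card ≤ 1 → f ∈ U := by
    intro U hU hUT hUZ
    have h1 : (U \ Z).card = U.card - (U ∩ Z).card := by
      have := Finset.card_sdiff_add_card_inter U Z
      omega
    have h2 : 0 < (U \ Z).card := by omega
    obtain ⟨e, he⟩ := Finset.card_pos.1 h2
    have h3 : e ∈ T \ Z := by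
      rw [Finset.mem_sdiff] at he ⊢
      exact ⟨hUT he.1, he.2⟩
    rw [hf, Finset.mem_singleton] at h3
    rw [← h3]
    exact (Finset.mem_sdiff.1 he).1
  have hfX := key X hX hXT hXZ
  have hfY := key Y hY hYT hYZ
  set B := ((T \ X).powerset ∪ (T \ Y).powerset) ∪ {{f}} with hB
  have hBT : B ⊆ T.powerset := by
    intro F hF
    rw [hB, Finset.mem_union, Finset.mem_union, Finset.mem_powerset, Finset.mem_powerset,
      Finset.mem_singleton] at hF
    rw [Finset.mem_powerset]
    rcases hF with (h | h) | h
    · exact h.trans Finset.sdiff_subset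
    · exact h.trans Finset.sdiff_subset
    · rw [h, Finset.singleton_subset_iff]
      exact hfT.1
  have hWB : W ⊆ T.powerset \ B := by
    intro F hF
    rw [Finset.mem_sdiff]
    refine ⟨hW hF, ?_⟩
    intro h
    rw [hB, Finset.mem_union, Finset.mem_union, Finset.mem_powerset, Finset.mem_powerset,
      Finset.mem_singleton] at h
    rcases h with (h | h) | h
    · obtain ⟨e, he, heX⟩ := hWX F hF
      exact (Finset.mem_sdiff.1 (h he)).2 heX
    · obtain ⟨e, he, heY⟩ := hWY F hF
      exact (Finset.mem_sdiff.1 (h he)).2 heY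
    · obtain ⟨e, he, heZ⟩ := hWZ F hF
      rw [h, Finset.mem_singleton] at he
      rw [he] at heZ
      exact hfT.2 heZ
  have hcX : ((T \ X).powerset).card = 4 := by
    rw [Finset.card_powerset, Finset.card_sdiff_of_subset hXT, hT, hX]
    norm_num
  have hcY : ((T \ Y).powerset).card = 4 := by
    rw [Finset.card_powerset, Finset.card_sdiff_of_subset hYT, hT, hY]
    norm_num
  have hcI : ((T \ X).powerset ∩ (T \ Y).powerset).card ≤ 2 := by
    have h1 : (T \ X).powerset ∩ (T \ Y).powerset ⊆ (T \ (X ∪ Y)).powerset := by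
      intro F hF
      rw [Finset.mem_inter, Finset.mem_powerset, Finset.mem_powerset] at hF
      rw [Finset.mem_powerset]
      intro e he
      have a := hF.1 he
      have b := hF.2 he
      rw [Finset.mem_sdiff] at a b ⊢
      refine ⟨a.1, ?_⟩
      rw [Finset.mem_union]
      rintro (h | h)
      · exact a.2 h
      · exact b.2 h
    have h2 : (T \ (X ∪ Y)).card ≤ 1 := by
      have h3 := Finset.card_union_add_card_inter X Y
      have h4 : X ∪ Y ⊆ T := Finset.union_subset hXT hYT
      rw [Finset.card_sdiff_of_subset h4]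
      omega
    calc _ ≤ ((T \ (X ∪ Y)).powerset).card := Finset.card_le_card h1
      _ = 2 ^ (T \ (X ∪ Y)).card := Finset.card_powerset _
      _ ≤ 2 ^ 1 := Nat.pow_le_pow_right (by norm_num) h2
      _ = 2 := by norm_num
  have hcU : 6 ≤ ((T \ X).powerset ∪ (T \ Y).powerset).card := by
    have := Finset.card_union_add_card_inter (T \ X).powerset (T \ Y).powerset
    omega
  have hcB : 7 ≤ B.card := by
    rw [hB, Finset.card_union_of_disjoint]
    · rw [Finset.card_singleton]
      omega
    · rw [Finset.disjoint_singleton_right, Finset.mem_union, Finset.mem_powerset,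
        Finset.mem_powerset]
      rintro (h | h)
      · exact (Finset.mem_sdiff.1 (h (Finset.mem_singleton_self f))).2 hfX
      · exact (Finset.mem_sdiff.1 (h (Finset.mem_singleton_self f))).2 hfY
  have hfin := Finset.card_le_card hWB
  rw [Finset.card_sdiff_of_subset hBT, Finset.card_powerset, hT] at hfin
  norm_num at hfin
  omega

end J_WS_card

/-- TARGET -/
theorem WS_card {V : Type} [Fintype V] [DecidableEq V] (G : SimpleGraph V) [DecidableRel G.Adj]
    (hδ : ∀ v, 2 ≤ G.degree v) (A : Finset V) (hodd : Odd A.card) (hT : (TS G A).card = A.card + 1)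
    (hs : (∑ v ∈ A, G.degree v) + 1 ≤ 2 * (TS G A).card) :
    (WS G A).card ≤ 3 ^ (A.filter (fun v => G.degree v = 2)).card := by
  have h1 := J_WS_card.sum_ge G hδ A
  have h2 : (A.filter (fun v => G.degree v = 2)).card +
      (A.filter (fun v => ¬ G.degree v = 2)).card = A.card :=
    Finset.card_filter_add_card_filter_not _
  have h3 : (A.filter (fun v => ¬ G.degree v = 2)).card ≤ 1 := by omega
  have h4 := J_WS_card.WS_le G A
  rcases Nat.lt_or_ge A.card 5 with hA | hA
  · have hcases : A.card = 1 ∨ A.card = 3 := by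
      obtain ⟨r, hr⟩ := hodd
      omega
    rcases hcases with h | h
    · obtain ⟨v, rfl⟩ := Finset.card_eq_one.1 h
      have hTS : TS G {v} = G.incidenceFinset v := by
        ext e
        rw [J_WS_card.mem_inc]
        unfold TS
        rw [Finset.mem_filter]
        constructor
        · rintro ⟨a, w, hw, hwe⟩
          rw [Finset.mem_singleton] at hw
          subst hw
          exact ⟨a, hwe⟩
        · rintro ⟨a, b⟩
          exact ⟨a, v, Finset.mem_singleton_self v, b⟩
      have hdeg : G.degree v = 2 := by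
        rw [← SimpleGraph.card_incidenceFinset_eq_degree, ← hTS, hT, h]
      have hq : (({v} : Finset V).filter (fun v => G.degree v = 2)).card = 1 := by
        rw [Finset.filter_singleton, if_pos hdeg, Finset.card_singleton]
      rw [hq]
      have hsub : WS G {v} ⊆ (TS G {v}).powerset.erase ∅ := by
        intro F hF
        unfold WS at hF
        rw [Finset.mem_filter] at hF
        rw [Finset.mem_erase]
        refine ⟨?_, hF.1⟩
        rintro rfl
        obtain ⟨e, he, _⟩ := hF.2 v (Finset.mem_singleton_self v)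
        exact absurd he (Finset.notMem_empty e)
      have h5 := Finset.card_le_card hsub
      rw [Finset.card_erase_of_mem (Finset.empty_mem_powerset _), Finset.card_powerset, hT, h] at h5
      norm_num at h5 ⊢
      exact h5
    · rcases Nat.lt_or_ge (A.filter (fun v => G.degree v = 2)).card 3 with hq | hq
      · have hq2 : (A.filter (fun v => G.degree v = 2)).card = 2 := by omega
        have hn1 : (A.filter (fun v => ¬ G.degree v = 2)).card = 1 := by omega
        obtain ⟨x, y, hxy, hxyA⟩ := Finset.card_eq_two.1 hq2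
        obtain ⟨z, hz⟩ := Finset.card_eq_one.1 hn1
        have hx : x ∈ A ∧ G.degree x = 2 := by
          have : x ∈ A.filter (fun v => G.degree v = 2) := by rw [hxyA]; simp
          rwa [Finset.mem_filter] at this
        have hy : y ∈ A ∧ G.degree y = 2 := by
          have : y ∈ A.filter (fun v => G.degree v = 2) := by rw [hxyA]; simp
          rwa [Finset.mem_filter] at this
        have hz' : z ∈ A ∧ ¬ G.degree z = 2 := by
          have : z ∈ A.filter (fun v => ¬ G.degree v = 2) := by rw [hz]; simp
          rwa [Finset.mem_filter] at this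
        have hxz : x ≠ z := by
          rintro rfl
          exact hz'.2 hx.2
        have hyz : y ≠ z := by
          rintro rfl
          exact hz'.2 hy.2
        have hAeq : A = {x, y, z} := by
          symm
          apply Finset.eq_of_subset_of_card_le
          · intro w hw
            simp only [Finset.mem_insert, Finset.mem_singleton] at hw
            rcases hw with rfl | rfl | rfl
            · exact hx.1
            · exact hy.1
            · exact hz'.1
          · rw [h, Finset.card_eq_three.2 ⟨x, y, z, hxy, hxz, hyz, rfl⟩]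
        have hdz : G.degree z = 3 := by
          have hsum : ∑ v ∈ A, G.degree v = G.degree x + (G.degree y + G.degree z) := by
            rw [hAeq, Finset.sum_insert (by simp [hxy, hxz]), Finset.sum_insert (by simp [hyz]),
              Finset.sum_singleton]
          have := hδ z
          omega
        rw [hq2]
        have h9 : (WS G A).card ≤ 9 := by
          refine J_WS_card.three (TS G A) (G.incidenceFinset x) (G.incidenceFinset y)
            (G.incidenceFinset z) (WS G A) (by omega) ?_ ?_ ?_ (J_WS_card.inc_sub G A hx.1)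
            (J_WS_card.inc_sub G A hy.1) (J_WS_card.inc_sub G A hz'.1)
            (J_WS_card.inc_inter G hxy) (J_WS_card.inc_inter G hxz) (J_WS_card.inc_inter G hyz)
            (Finset.filter_subset _ _) ?_ ?_ ?_
          · rw [SimpleGraph.card_incidenceFinset_eq_degree]; exact hx.2
          · rw [SimpleGraph.card_incidenceFinset_eq_degree]; exact hy.2
          · rw [SimpleGraph.card_incidenceFinset_eq_degree]; exact hdz
          all_goals
            intro F hF
            unfold WS at hF
            rw [Finset.mem_filter, Finset.mem_powerset] at hF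
          · obtain ⟨e, he, hve⟩ := hF.2 x hx.1
            refine ⟨e, he, ?_⟩
            rw [J_WS_card.mem_inc]
            exact ⟨(Finset.mem_filter.1 (hF.1 he)).1, hve⟩
          · obtain ⟨e, he, hve⟩ := hF.2 y hy.1
            refine ⟨e, he, ?_⟩
            rw [J_WS_card.mem_inc]
            exact ⟨(Finset.mem_filter.1 (hF.1 he)).1, hve⟩
          · obtain ⟨e, he, hve⟩ := hF.2 z hz'.1
            refine ⟨e, he, ?_⟩
            rw [J_WS_card.mem_inc]
            exact ⟨(Finset.mem_filter.1 (hF.1 he)).1, hve⟩
        omega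
      · rw [hT, h] at h4
        calc (WS G A).card ≤ 2 ^ (3 + 1) := h4
          _ ≤ 3 ^ 3 := by norm_num
          _ ≤ 3 ^ (A.filter (fun v => G.degree v = 2)).card :=
            Nat.pow_le_pow_right (by norm_num) hq
  · obtain ⟨n, hn⟩ : ∃ n, A.card = n + 5 := ⟨A.card - 5, by omega⟩
    rw [hT, hn] at h4
    calc (WS G A).card ≤ 2 ^ (n + 5 + 1) := h4
      _ = 2 ^ (n + 6) := by rfl
      _ ≤ 3 ^ (n + 4) := J_WS_card.pow_ineq n
      _ ≤ 3 ^ (A.filter (fun v => G.degree v = 2)).card :=
        Nat.pow_le_pow_right (by norm_num) (by omega)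

end Pool.Agent.Helper326_EC
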