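import Pool.Agent.Helper326_EC.CoverOfPm
import Pool.Agent.Helper326_EC.PartOfViolator
import Pool.Agent.Helper326_EC.TSLower
import Pool.Agent.Helper326_EC.TSSum
import Pool.Agent.Helper326_EC.CoversLtProd
import Pool.Agent.Helper326_EC.WSCard
import Pool.Agent.Helper326_EC.Small5
import Pool.Agent.Helper326_EC.CountM1
import Pool.Agent.Helper326_EC.CountM2
import Pool.Agent.Helper326_EC.PolyPart

set_option autoImplicit false

/-!
The edge cover polynomial of a connected graph with minimum degree two has at least three distinct complex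
roots, unless the graph is a triangle.
-/

namespace Pool.Agent.Helper326_EC

open Finset

theorem deficiency {V : Type} [Fintype V] [DecidableEq V] (G : SimpleGraph V) [DecidableRel G.Adj]
    (hδ : ∀ v, ∃ w, G.Adj v w) (k : ℕ) (hk : Fintype.card V + 2 ≤ 2 * k)
    (h : ∀ F ∈ covers G, k ≤ F.card) :
    ∃ (U : Finset V) (κ : V → V), Good G U κ ∧
      U.card + 2 * k ≤ Fintype.card V + ((I U κ).filter (fun c => Odd (K U κ c).card)).card := by
  obtain ⟨d, hd⟩ : ∃ d, Fintype.card V + d + 2 = 2 * k := ⟨2 * k - 2 - Fintype.card V, by omega⟩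
  have hno : ¬ ∃ M : (jn G d).Subgraph, M.IsPerfectMatching := by
    rintro ⟨M, hM⟩
    obtain ⟨F, hF, hc⟩ := cover_of_pm G hδ d M hM
    have := h F hF
    omega
  rw [SimpleGraph.tutte] at hno
  push Not at hno
  obtain ⟨S, hS⟩ := hno
  obtain ⟨U, κ, hκ, hc⟩ := part_of_violator G d ⟨k - 1, by omega⟩ S hS
  exact ⟨U, κ, hκ, by omega⟩

theorem K_nonempty {V : Type} [Fintype V] [DecidableEq V] {U : Finset V} {κ : V → V} {c : V}
    (hc : c ∈ I U κ) : (K U κ c).Nonempty := by
  unfold I at hc
  rw [mem_image] at hc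
  obtain ⟨v, hv, rfl⟩ := hc
  exact ⟨v, by simpa [K] using hv⟩

theorem sum_K {V : Type} [Fintype V] [DecidableEq V] (U : Finset V) (κ : V → V) :
    ∑ c ∈ I U κ, (K U κ c).card + U.card = Fintype.card V := by
  have h1 : (univ.filter (fun v => v ∉ U)).card = ∑ c ∈ I U κ, (K U κ c).card := by
    unfold I
    rw [card_eq_sum_card_image κ (univ.filter (fun v => v ∉ U))]
    apply sum_congr rfl
    intro c _
    congr 1
    unfold K
    rw [filter_filter]
  have h2 : (univ.filter (fun v => v ∉ U)).card + U.card = Fintype.card V := by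
    have := card_compl_add_card U
    have e : univ.filter (fun v => v ∉ U) = Uᶜ := by ext; simp
    rw [e]; exact this
  omega

theorem TS_ge {V : Type} [Fintype V] [DecidableEq V] (G : SimpleGraph V) [DecidableRel G.Adj]
    (hG : G.Connected) (hδ : ∀ v, 2 ≤ G.degree v) (U : Finset V) (hU : U.Nonempty) (κ : V → V)
    {c : V} (hc : c ∈ I U κ) :
    (∑ v ∈ K U κ c, G.degree v) + 1 ≤ 2 * (TS G (K U κ c)).card ∧ (K U κ c).card + 1 ≤ (TS G (K U κ c)).card := by
  have hne : K U κ c ≠ univ := by
    obtain ⟨u, hu⟩ := hU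
    intro h
    have : u ∈ K U κ c := by rw [h]; exact mem_univ u
    simp [K, hu] at this
  have h1 := TS_lower G hG (K U κ c) (K_nonempty hc) hne
  refine ⟨h1, ?_⟩
  have h2 : (K U κ c).card * 2 ≤ ∑ v ∈ K U κ c, G.degree v := by
    have := Finset.card_nsmul_le_sum (K U κ c) (fun v => G.degree v) 2 (fun v _ => hδ v)
    simpa using this
  omega

theorem ineq {V : Type} [Fintype V] [DecidableEq V] (G : SimpleGraph V) [DecidableRel G.Adj]
    (hG : G.Connected) (hδ : ∀ v, 2 ≤ G.degree v) (U : Finset V) (hU : U.Nonempty) (κ : V → V) :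
    Fintype.card V + (I U κ).card ≤ U.card + ∑ c ∈ I U κ, (TS G (K U κ c)).card := by
  have h1 : ∑ c ∈ I U κ, ((K U κ c).card + 1) ≤ ∑ c ∈ I U κ, (TS G (K U κ c)).card :=
    sum_le_sum fun c hc => (TS_ge G hG hδ U hU κ hc).2
  rw [sum_add_distrib, sum_const, smul_eq_mul, mul_one] at h1
  have := sum_K U κ
  omega

theorem empty_case {V : Type} [Fintype V] [DecidableEq V] (G : SimpleGraph V)
    (hG : G.Connected) (κ : V → V) (hκ : Good G ∅ κ) : (I (∅ : Finset V) κ).card ≤ 1 := by
  rw [card_le_one]
  intro a ha b hb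
  unfold I at ha hb
  rw [mem_image] at ha hb
  obtain ⟨v, -, rfl⟩ := ha
  obtain ⟨w, -, rfl⟩ := hb
  have hr := hG.preconnected v w
  obtain ⟨p⟩ := hr
  induction p with
  | nil => rfl
  | cons h _ ih => exact (hκ _ _ (by simp) (by simp) h).trans ih

theorem no_tight {V : Type} [Fintype V] [DecidableEq V] (G : SimpleGraph V) [DecidableRel G.Adj]
    (hG : G.Connected) (hδ : ∀ v, 2 ≤ G.degree v) (U : Finset V) (hU : U.Nonempty) (κ : V → V)
    (hκ : Good G U κ) (N : ℕ) (hN : (deg2 G).card = N) (hc : (covers G).card = 3 ^ N)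
    (h : U.card + G.edgeFinset.card ≤
      Fintype.card V + ((I U κ).filter (fun c => Odd (K U κ c).card)).card) : False := by
  have h1 := ineq G hG hδ U hU κ
  have h2 := TS_sum G U κ hκ
  have h3 : (G.edgeFinset.filter (fun e => ∃ v ∈ e, v ∉ U)).card ≤ G.edgeFinset.card := card_filter_le _ _
  have h4 : ((I U κ).filter (fun c => Odd (K U κ c).card)).card ≤ (I U κ).card := card_filter_le _ _
  have h5 : (G.edgeFinset.filter (fun e => ∃ v ∈ e, v ∉ U)).card = G.edgeFinset.card := by omega
  have h6 : ((I U κ).filter (fun c => Odd (K U κ c).card)).card = (I U κ).card := by omega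
  have hE : ∀ e ∈ G.edgeFinset, ∃ v ∈ e, v ∉ U := by
    rw [card_filter_eq_iff] at h5
    exact h5
  have hO : ∀ c ∈ I U κ, Odd (K U κ c).card := by
    rw [card_filter_eq_iff] at h6
    exact h6
  have hs : ∑ c ∈ I U κ, ((K U κ c).card + 1) = ∑ c ∈ I U κ, (TS G (K U κ c)).card := by
    rw [sum_add_distrib, sum_const, smul_eq_mul, mul_one]
    have := sum_K U κ
    omega
  have hT := (sum_eq_sum_iff_of_le (fun c hc => (TS_ge G hG hδ U hU κ hc).2)).mp hs
  have hlt := covers_lt_prod G hδ U hU κ hκ hE
  have hle : ∏ c ∈ I U κ, (WS G (K U κ c)).card ≤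
      ∏ c ∈ I U κ, 3 ^ ((K U κ c).filter (fun v => G.degree v = 2)).card :=
    prod_le_prod (fun _ _ => Nat.zero_le _) fun c hc =>
      WS_card G hδ (K U κ c) (hO c hc) (hT c hc).symm (TS_ge G hG hδ U hU κ hc).1
  rw [prod_pow_eq_pow_sum] at hle
  have hsum : ∑ c ∈ I U κ, ((K U κ c).filter (fun v => G.degree v = 2)).card ≤ N := by
    rw [← hN, ← card_biUnion]
    · apply card_le_card
      intro v hv
      rw [mem_biUnion] at hv
      obtain ⟨c, _, hv⟩ := hv
      rw [mem_filter] at hv
      simp [deg2, hv.2]
    · intro c _ c' _ hcc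
      rw [Function.onFun, disjoint_left]
      intro v hv hv'
      simp only [K, mem_filter, mem_univ, true_and] at hv hv'
      exact hcc (hv.1.2.symm.trans hv'.1.2)
  have := Nat.pow_le_pow_right (show 0 < 3 by norm_num) hsum
  omega

/-- the edge cover polynomial over the integers -/
noncomputable def EP {V : Type} [Fintype V] [DecidableEq V] (G : SimpleGraph V) [DecidableRel G.Adj] :
    Polynomial ℤ := ∑ F ∈ covers G, Polynomial.X ^ F.card

theorem EP_coeff {V : Type} [Fintype V] [DecidableEq V] (G : SimpleGraph V) [DecidableRel G.Adj] (i : ℕ) :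
    (EP G).coeff i = ((covers G).filter (fun F => F.card = i)).card := by
  unfold EP
  rw [Polynomial.finsetSum_coeff]
  simp only [Polynomial.coeff_X_pow]
  rw [card_filter]
  push_cast
  apply sum_congr rfl
  intro F _
  by_cases h : F.card = i
  · simp [h]
  · simp [h, Ne.symm h]

theorem EP_eval {V : Type} [Fintype V] [DecidableEq V] (G : SimpleGraph V) [DecidableRel G.Adj] :
    (EP G).eval 1 = (covers G).card := by
  unfold EP
  rw [Polynomial.eval_finsetSum]
  simp

theorem cover_le {V : Type} [Fintype V] [DecidableEq V] (G : SimpleGraph V) [DecidableRel G.Adj]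
    {F : Finset (Sym2 V)} (hF : F ∈ covers G) : F ⊆ G.edgeFinset := by
  unfold covers at hF
  rw [mem_filter, mem_powerset] at hF
  exact hF.1

theorem edge_cover {V : Type} [Fintype V] [DecidableEq V] (G : SimpleGraph V) [DecidableRel G.Adj]
    (hδ : ∀ v, 2 ≤ G.degree v) : G.edgeFinset ∈ covers G := by
  unfold covers
  rw [mem_filter, mem_powerset]
  refine ⟨subset_refl _, ?_⟩
  intro v
  have h : 0 < G.degree v := by have := hδ v; omega
  rw [SimpleGraph.degree_pos_iff_exists_adj] at h
  obtain ⟨w, hw⟩ := h
  exact ⟨s(v, w), by simpa using hw, by simp⟩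

theorem EP_top {V : Type} [Fintype V] [DecidableEq V] (G : SimpleGraph V) [DecidableRel G.Adj]
    (hδ : ∀ v, 2 ≤ G.degree v) : (EP G).coeff G.edgeFinset.card = 1 := by
  rw [EP_coeff]
  have : (covers G).filter (fun F => F.card = G.edgeFinset.card) = {G.edgeFinset} := by
    ext F
    rw [mem_filter, mem_singleton]
    constructor
    · rintro ⟨h1, h2⟩
      exact eq_of_subset_of_card_le (cover_le G h1) h2.ge
    · rintro rfl
      exact ⟨edge_cover G hδ, rfl⟩
  rw [this]; simp

theorem EP_deg {V : Type} [Fintype V] [DecidableEq V] (G : SimpleGraph V) [DecidableRel G.Adj]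
    (hδ : ∀ v, 2 ≤ G.degree v) : (EP G).natDegree = G.edgeFinset.card ∧ (EP G).Monic := by
  have h1 : (EP G).natDegree ≤ G.edgeFinset.card := by
    rw [Polynomial.natDegree_le_iff_coeff_eq_zero]
    intro i hi
    rw [EP_coeff]
    have : (covers G).filter (fun F => F.card = i) = ∅ := by
      rw [filter_eq_empty_iff]
      intro F hF h
      have := card_le_card (cover_le G hF)
      omega
    rw [this]; simp
  have h2 : (EP G).natDegree = G.edgeFinset.card := by
    apply le_antisymm h1
    apply Polynomial.le_natDegree_of_ne_zero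
    rw [EP_top G hδ]
    norm_num
  refine ⟨h2, ?_⟩
  unfold Polynomial.Monic Polynomial.leadingCoeff
  rw [h2, EP_top G hδ]

theorem main {V : Type} [Fintype V] [DecidableEq V] (G : SimpleGraph V) [DecidableRel G.Adj]
    (hG : G.Connected) (hδ : ∀ v, 2 ≤ G.degree v) (h2 : ∃ v, G.degree v = 2)
    (hK : ¬ Nonempty (G ≃g (⊤ : SimpleGraph (Fin 3)))) :
    3 ≤ {z : ℂ | Polynomial.aeval z (EP G) = 0}.ncard := by
  by_contra hcon
  have hr : {z : ℂ | Polynomial.aeval z (EP G) = 0}.ncard ≤ 2 := by omega
  set m := G.edgeFinset.card with hm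
  set N := (deg2 G).card with hN
  set n := Fintype.card V with hn
  have hsum : ∑ v, G.degree v = 2 * m := G.sum_degrees_eq_twice_card_edges
  have hN0 : 0 < N := by
    obtain ⟨v, hv⟩ := h2
    exact card_pos.mpr ⟨v, by simp [deg2, hv]⟩
  have hNn : N ≤ n := card_le_univ _
  have hnm : n ≤ m := by
    have := Finset.card_nsmul_le_sum univ (fun v => G.degree v) 2 (fun v _ => hδ v)
    rw [smul_eq_mul, card_univ] at this
    omega
  have hn3 : 3 ≤ n := by
    obtain ⟨v, hv⟩ := h2
    have := G.degree_lt_card_verts v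
    omega
  have hcard : m ≤ n.choose 2 := G.card_edgeFinset_le_card_choose_two
  have hex : ∀ v, ∃ w, G.Adj v w := by
    intro v
    rw [← SimpleGraph.degree_pos_iff_exists_adj]
    have := hδ v; omega
  have hP := EP_deg G hδ
  have hc0 : (EP G).coeff 0 = 0 := by
    rw [EP_coeff]
    have : (covers G).filter (fun F => F.card = 0) = ∅ := by
      rw [filter_eq_empty_iff]
      intro F hF h
      rw [card_eq_zero] at h
      subst h
      obtain ⟨v, _⟩ := h2
      unfold covers at hF
      rw [mem_filter] at hF
      obtain ⟨e, he, _⟩ := hF.2 v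
      simp at he
    rw [this]; simp
  have hc1 : (EP G).coeff (m - 1) = m := by
    rw [EP_coeff, count_m1 G hδ (by omega)]
  have hc2 : (EP G).coeff (m - 2) + N = m.choose 2 := by
    rw [EP_coeff]
    exact_mod_cast count_m2 G hδ (by omega)
  have hlow : ∀ k, (∀ i < k, (EP G).coeff i = 0) → ∀ F ∈ covers G, k ≤ F.card := by
    intro k hk F hF
    by_contra hlt
    have h0 := hk F.card (by omega)
    rw [EP_coeff] at h0
    have h1 : ((covers G).filter (fun F' => F'.card = F.card)).card = 0 := by exact_mod_cast h0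
    rw [card_eq_zero, filter_eq_empty_iff] at h1
    exact h1 hF rfl
  rcases poly_part (EP G) m N (by omega) hN0 (by omega) hP.2 hP.1 hc0 hc1 hc2 hr with
    ⟨hm2, hlo, hev⟩ | ⟨hmN, b, hb, hlo⟩
  · -- `m = 2 N`
    have hcov : (covers G).card = 3 ^ N := by
      rw [EP_eval] at hev
      exact_mod_cast hev
    by_cases hbig : n + 2 ≤ m
    · obtain ⟨U, κ, hκ, hc⟩ := deficiency G hex N (by omega) (hlow N hlo)
      rcases U.eq_empty_or_nonempty with hU | hU
      · subst hU
        have h1 := empty_case G hG κ hκ
        have h4 : ((I ∅ κ).filter (fun c => Odd (K ∅ κ c).card)).card ≤ (I ∅ κ).card := card_filter_le _ _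
        simp only [card_empty] at hc
        omega
      · exact no_tight G hG hδ U hU κ hκ N rfl hcov (by omega)
    · -- small graphs
      have h3 : 3 * n ≤ 5 * N := by
        have h5 : ∑ v : V, (if G.degree v = 2 then 2 else 3) ≤ ∑ v, G.degree v := by
          apply sum_le_sum
          intro v _
          have := hδ v
          split_ifs <;> omega
        have h6 : ∑ v : V, (if G.degree v = 2 then 2 else 3) + N = 3 * n := by
          rw [hN, deg2, card_filter, ← sum_add_distrib]
          have h7 : ∀ v ∈ (univ : Finset V), ((if G.degree v = 2 then 2 else 3) + (if G.degree v = 2 then 1 else 0)) = 3 := by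
            intro v _
            split_ifs <;> rfl
          rw [sum_congr rfl h7, sum_const, card_univ, smul_eq_mul, mul_comm]
        omega
      have hN3 : N ≤ 3 := by omega
      interval_cases hNN : N
      · omega
      · have : n = 3 := by omega
        rw [this] at hcard
        norm_num [Nat.choose] at hcard
        omega
      · exact small5 G hδ (by omega) (by omega) (by omega) (by rw [hcov]; norm_num)
  · -- `m = N`
    have hnm' : n = m := by omega
    by_cases hb1 : b ≤ 1
    · have hn3' : n = 3 := by omega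
      apply hK
      have hadj : ∀ v w, v ≠ w → G.Adj v w := by
        intro v w hvw
        by_contra hna
        have h1 : G.neighborFinset v ⊆ (univ.erase v).erase w := by
          intro x hx
          rw [SimpleGraph.mem_neighborFinset] at hx
          rw [mem_erase, mem_erase]
          refine ⟨?_, hx.ne', mem_univ _⟩
          rintro rfl
          exact hna hx
        have h2 := card_le_card h1
        rw [SimpleGraph.card_neighborFinset_eq_degree, card_erase_of_mem (by rw [mem_erase]; exact ⟨hvw.symm, mem_univ _⟩),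
          card_erase_of_mem (mem_univ _), card_univ] at h2
        have := hδ v
        omega
      have htop : G = ⊤ := by
        ext v w
        rw [SimpleGraph.top_adj]
        exact ⟨fun h => h.ne, hadj v w⟩
      rw [htop]
      exact ⟨SimpleGraph.Iso.completeGraph (Fintype.equivFinOfCardEq (by omega))⟩
    · obtain ⟨U, κ, hκ, hc⟩ := deficiency G hex (2 * b) (by omega) (hlow (2 * b) hlo)
      have h4 : ((I U κ).filter (fun c => Odd (K U κ c).card)).card ≤ (I U κ).card := card_filter_le _ _
      rcases U.eq_empty_or_nonempty with hU | hU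
      · subst hU
        have h1 := empty_case G hG κ hκ
        simp only [card_empty] at hc
        omega
      · have h1 := ineq G hG hδ U hU κ
        have h2' := TS_sum G U κ hκ
        have h3 : (G.edgeFinset.filter (fun e => ∃ v ∈ e, v ∉ U)).card ≤ G.edgeFinset.card := card_filter_le _ _
        omega

end Pool.Agent.Helper326_EC
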